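import Mathlib
import Pool.Agent.Lib.ANT.Moebius

-- merged part: Pool.Agent.Work.MP_2872f6_an.Blocks
section
/-!
# Blocks of binary sequences and the counting part of a Downarowicz-Serafin type construction
-/

open Finset

namespace Pool.Agent.Work.MP_2872f6_an

/-- Two-sided binary sequences. -/
abbrev Sq := ℤ → Bool

/-- The shift by `k`. -/
def shift (k : ℤ) (z : Sq) : Sq := fun i => z (i + k)

/-- The block of length `L` of `z` starting at `a`, padded by `false`. -/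
def blk (z : Sq) (a : ℤ) (L : ℕ) : Sq := fun i => if 0 ≤ i ∧ i < L then z (a + i) else false

/-- Concatenation at position `L`. -/
def cat (L : ℕ) (u v : Sq) : Sq := fun i => if i < L then u i else v (i - L)

lemma blk_cat_left {L M : ℕ} {a : ℤ} (u v : Sq) (h : a + M ≤ L) :
    blk (cat L u v) a M = blk u a M := by
  ext i
  simp only [blk, cat]
  split_ifs with h1 h2
  · rfl
  · omega
  · rfl

lemma blk_cat_right {L M : ℕ} {a : ℤ} (u v : Sq) (h : 0 ≤ a) :
    blk (cat L u v) (L + a) M = blk v a M := by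
  ext i
  simp only [blk, cat]
  split_ifs with h1 h2
  · omega
  · congr 1; ring
  · rfl

lemma blk_blk {L M : ℕ} {a b : ℤ} (z : Sq) (h0 : 0 ≤ b) (h : b + M ≤ L) :
    blk (blk z a L) b M = blk z (a + b) M := by
  ext i
  simp only [blk]
  split_ifs with h1 h2
  · congr 1; ring
  · omega
  · rfl

lemma blk_two_mul (z : Sq) (a : ℤ) (L : ℕ) :
    blk z a (L * 2) = cat L (blk z a L) (blk z (a + L) L) := by
  ext i
  simp only [blk, cat]
  push_cast
  split_ifs <;> first | rfl | omega | (congr 1; ring)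

lemma blk_shift (z : Sq) (k a : ℤ) (L : ℕ) : blk (shift k z) a L = blk z (a + k) L := by
  ext i
  simp only [blk, shift]
  split_ifs
  · congr 1; ring
  · rfl

lemma blk_cat_self {L : ℕ} {u v : Sq} (hu : blk u 0 L = u) (hv : blk v 0 L = v) :
    blk (cat L u v) 0 (L * 2) = cat L u v := by
  rw [blk_two_mul, blk_cat_left u v (by simp), hu, zero_add]
  have := blk_cat_right (L := L) (M := L) (a := 0) u v le_rfl
  rw [add_zero] at this
  rw [this, hv]

open Classical in
/-- All concatenations of two blocks of `A`. -/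
noncomputable def dbl (L : ℕ) (A : Finset Sq) : Finset Sq :=
  (A ×ˢ A).image (fun x => cat L x.1 x.2)

lemma mem_dbl {L : ℕ} {A : Finset Sq} {w : Sq} :
    w ∈ dbl L A ↔ ∃ u ∈ A, ∃ v ∈ A, cat L u v = w := by
  simp only [dbl, mem_image, mem_product, Prod.exists]
  exact ⟨fun ⟨u, v, h, e⟩ => ⟨u, h.1, v, h.2, e⟩, fun ⟨u, h1, v, h2, e⟩ => ⟨u, v, ⟨h1, h2⟩, e⟩⟩

lemma dbl_mono {L : ℕ} {A B : Finset Sq} (h : A ⊆ B) : dbl L A ⊆ dbl L B := by
  intro w hw
  obtain ⟨u, hu, v, hv, rfl⟩ := mem_dbl.1 hw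
  exact mem_dbl.2 ⟨u, h hu, v, h hv, rfl⟩

lemma supp_dbl {L : ℕ} {A : Finset Sq} (hA : ∀ u ∈ A, blk u 0 L = u) :
    ∀ w ∈ dbl L A, blk w 0 (L * 2) = w := by
  intro w hw
  obtain ⟨u, hu, v, hv, rfl⟩ := mem_dbl.1 hw
  exact blk_cat_self (hA u hu) (hA v hv)

lemma sum_dbl {L : ℕ} {A : Finset Sq} (hA : ∀ u ∈ A, blk u 0 L = u) (F : Sq → ℝ) :
    ∑ w ∈ dbl L A, F w = ∑ u ∈ A, ∑ v ∈ A, F (cat L u v) := by
  classical
  rw [dbl, sum_image, sum_product]
  rintro ⟨u, v⟩ h ⟨u', v'⟩ h' e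
  simp only [coe_product, Set.mem_prod, mem_coe] at h h'
  have e1 := congrArg (fun w => blk w 0 L) e
  have e2 := congrArg (fun w => blk w (L + 0) L) e
  simp only [blk_cat_left _ _ (show (0 : ℤ) + L ≤ L by simp), blk_cat_right _ _ le_rfl] at e1 e2
  rw [hA _ h.1, hA _ h'.1] at e1
  rw [hA _ h.2, hA _ h'.2] at e2
  rw [e1, e2]

lemma card_dbl {L : ℕ} {A : Finset Sq} (hA : ∀ u ∈ A, blk u 0 L = u) :
    ((dbl L A).card : ℝ) = (A.card : ℝ) ^ 2 := by
  have := sum_dbl hA (fun _ => 1)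
  simpa [sq] using this

lemma card_dbl_le (L : ℕ) (A : Finset Sq) : (dbl L A).card ≤ A.card ^ 2 := by
  classical
  rw [dbl, sq, ← card_product]
  exact card_image_le

/-- All concatenations of `2 ^ d` blocks of `A`. -/
noncomputable def tower (L : ℕ) (A : Finset Sq) : ℕ → Finset Sq
  | 0 => A
  | d + 1 => dbl (L * 2 ^ d) (tower L A d)

lemma supp_tower {L : ℕ} {A : Finset Sq} (hA : ∀ u ∈ A, blk u 0 L = u) (d : ℕ) :
    ∀ w ∈ tower L A d, blk w 0 (L * 2 ^ d) = w := by
  induction d with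
  | zero => simpa [tower] using hA
  | succ d ih =>
    rw [pow_succ, ← mul_assoc]
    exact supp_dbl ih

/-- Sum of a function of the consecutive sub-blocks of length `L`. -/
def bsum (L : ℕ) (X : ℕ → Sq → ℝ) (n d : ℕ) (w : Sq) : ℝ :=
  ∑ l ∈ range (2 ^ d), X (n + l * L) (blk w (l * L) L)

lemma bsum_cat (L : ℕ) (X : ℕ → Sq → ℝ) (n d : ℕ) (u v : Sq) :
    bsum L X n (d + 1) (cat (L * 2 ^ d) u v) = bsum L X n d u + bsum L X (n + L * 2 ^ d) d v := by
  simp only [bsum]
  rw [pow_succ, mul_two, sum_range_add]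
  congr 1
  · refine sum_congr rfl fun l hl => ?_
    rw [blk_cat_left]
    have : l + 1 ≤ 2 ^ d := mem_range.1 hl
    have : ((l + 1) * L : ℕ) ≤ L * 2 ^ d := by rw [mul_comm L]; gcongr
    push_cast at this ⊢
    exact_mod_cast (by zify at this; linarith only [this] : (l : ℤ) * L + L ≤ L * 2 ^ d)
  · refine sum_congr rfl fun l _ => ?_
    have e : (((2 ^ d + l : ℕ) : ℤ) * L) = ((L * 2 ^ d : ℕ) : ℤ) + l * L := by push_cast; ring
    rw [e, blk_cat_right _ _ (by positivity)]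
    congr 1
    ring

lemma mgf_tower {L : ℕ} {A : Finset Sq} (hA : ∀ u ∈ A, blk u 0 L = u) {X : ℕ → Sq → ℝ} {B : ℝ}
    (hX : ∀ n, ∑ u ∈ A, Real.exp (X n u) ≤ B) (d n : ℕ) :
    ∑ w ∈ tower L A d, Real.exp (bsum L X n d w) ≤ B ^ (2 ^ d) := by
  induction d generalizing n with
  | zero =>
    simp only [tower, bsum, pow_zero, range_one, sum_singleton, zero_mul, add_zero, pow_one,
      CharP.cast_eq_zero]
    refine le_of_eq_of_le (sum_congr rfl fun u hu => by rw [hA u hu]) (hX n)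
  | succ d ih =>
    rw [tower, sum_dbl (supp_tower hA d)]
    simp only [bsum_cat, Real.exp_add]
    rw [← sum_mul_sum, pow_succ, mul_two, pow_add]
    have h0 : 0 ≤ ∑ w ∈ tower L A d, Real.exp (bsum L X n d w) := by positivity
    exact mul_le_mul (ih n) (ih _) (by positivity) (h0.trans (ih n))

lemma sum_exp_le {A : Finset Sq} {f : Sq → ℝ} {b : ℝ} (hb : b ≤ 1) (hf : ∀ u, |f u| ≤ b)
    (h0 : ∑ u ∈ A, f u = 0) : ∑ u ∈ A, Real.exp (f u) ≤ A.card * Real.exp (b ^ 2) := by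
  have h1 : ∀ u, Real.exp (f u) ≤ 1 + b ^ 2 + f u := by
    intro u
    have h2 := Real.abs_exp_sub_one_sub_id_le ((hf u).trans hb)
    have h3 : f u ^ 2 ≤ b ^ 2 := by
      rw [← sq_abs]
      gcongr
      exact hf u
    linarith [le_abs_self (Real.exp (f u) - 1 - f u)]
  calc ∑ u ∈ A, Real.exp (f u) ≤ ∑ u ∈ A, (1 + b ^ 2 + f u) := sum_le_sum fun u _ => h1 u
    _ = A.card * (1 + b ^ 2) := by rw [sum_add_distrib, h0, sum_const, nsmul_eq_mul, add_zero]
    _ ≤ _ := by
        gcongr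
        linarith [Real.add_one_le_exp (b ^ 2)]

open Classical in
lemma tail_tower {L : ℕ} {A : Finset Sq} (hA : ∀ u ∈ A, blk u 0 L = u) {X : ℕ → Sq → ℝ}
    {c : ℝ} (hc : 1 ≤ c) (hX : ∀ n u, |X n u| ≤ 2 * c) (h0 : ∀ n, ∑ u ∈ A, X n u = 0) (d n : ℕ) :
    (((tower L A d).filter fun w => (2 : ℝ) ^ d ≤ bsum L X n d w).card : ℝ) ≤
      (A.card : ℝ) ^ (2 ^ d) * Real.exp (-(2 ^ d / (16 * c ^ 2))) := by
  set lam : ℝ := 1 / (8 * c ^ 2) with hlam
  have hc0 : 0 < c := by linarith only [hc]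
  have hl0 : 0 < lam := by positivity
  have h1 := mgf_tower hA (X := fun n u => lam * X n u)
    (B := A.card * Real.exp ((1 / (4 * c)) ^ 2)) (fun n => sum_exp_le
      (by rw [div_le_one (by positivity)]; linarith only [hc])
      (fun u => by
        clear * - lam X n u c hl0 hX hc hlam
        rw [abs_mul, abs_of_pos hl0]
        calc lam * |X n u| ≤ lam * (2 * c) := by gcongr; exact hX n u
          _ = 1 / (4 * c) := by rw [hlam]; field_simp; norm_num)
      (by rw [← mul_sum, h0, mul_zero])) d n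
  have h2 : ∀ w, bsum L (fun n u => lam * X n u) n d w = lam * bsum L X n d w := by
    intro w
    simp only [bsum, mul_sum]
  simp only [h2] at h1
  have h3 : (((tower L A d).filter fun w => (2 : ℝ) ^ d ≤ bsum L X n d w).card : ℝ) *
      Real.exp (lam * 2 ^ d) ≤ ∑ w ∈ tower L A d, Real.exp (lam * bsum L X n d w) := by
    rw [← nsmul_eq_mul, ← sum_const]
    refine (sum_le_sum fun w hw => ?_).trans
      (sum_le_sum_of_subset_of_nonneg (filter_subset _ _) fun _ _ _ => (Real.exp_pos _).le)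
    gcongr
    exact (mem_filter.1 hw).2
  have h4 := h3.trans h1
  rw [mul_pow, ← Real.exp_nat_mul, ← le_div_iff₀ (Real.exp_pos _), mul_div_assoc,
    ← Real.exp_sub] at h4
  refine h4.trans (le_of_eq ?_)
  congr 2
  rw [hlam]
  push_cast
  field_simp
  norm_num

open Classical in
lemma tail_tower_abs {L : ℕ} {A : Finset Sq} (hA : ∀ u ∈ A, blk u 0 L = u) {X : ℕ → Sq → ℝ}
    {c : ℝ} (hc : 1 ≤ c) (hX : ∀ n u, |X n u| ≤ 2 * c) (h0 : ∀ n, ∑ u ∈ A, X n u = 0) (d n : ℕ) :
    (((tower L A d).filter fun w => ¬ |bsum L X n d w| ≤ (2 : ℝ) ^ d).card : ℝ) ≤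
      2 * ((A.card : ℝ) ^ (2 ^ d) * Real.exp (-(2 ^ d / (16 * c ^ 2)))) := by
  have h1 := tail_tower hA hc hX h0 d n
  have h2 := tail_tower hA (X := fun n u => -X n u) hc (fun n u => by simpa using hX n u)
    (fun n => by simp [h0 n]) d n
  have h3 : ((tower L A d).filter fun w => ¬ |bsum L X n d w| ≤ (2 : ℝ) ^ d) ⊆
      ((tower L A d).filter fun w => (2 : ℝ) ^ d ≤ bsum L X n d w) ∪
      ((tower L A d).filter fun w => (2 : ℝ) ^ d ≤ bsum L (fun n u => -X n u) n d w) := by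
    intro w hw
    rw [mem_filter, not_le, lt_abs] at hw
    rw [mem_union, mem_filter, mem_filter]
    have : bsum L (fun n u => -X n u) n d w = -bsum L X n d w := by simp [bsum]
    rw [this]
    rcases hw.2 with h | h
    · exact .inl ⟨hw.1, h.le⟩
    · exact .inr ⟨hw.1, h.le⟩
  have h4 := (card_le_card h3).trans (card_union_le _ _)
  have h5 : (((tower L A d).filter fun w => ¬ |bsum L X n d w| ≤ (2 : ℝ) ^ d).card : ℝ) ≤ _ :=
    Nat.cast_le.2 h4
  push_cast at h5
  linarith only [h1, h2, h5]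

end Pool.Agent.Work.MP_2872f6_an
end

-- merged part: Pool.Agent.Work.MP_2872f6_an.Good
section
/-!
# The families of good blocks and their size
-/

open Finset

namespace Pool.Agent.Work.MP_2872f6_an

/-- Deviation of `x` from its mean over `A`. -/
noncomputable def dev (A : Finset Sq) (x : ℕ → Sq → ℝ) (n : ℕ) (u : Sq) : ℝ :=
  x n u - (∑ v ∈ A, x n v) / A.card

open Classical in
/-- The two blocks of length one. -/
noncomputable def G0 : Finset Sq := {fun _ => false, fun i => decide (i = 0)}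

open Classical in
/-- The good blocks of length `2 ^ j`. -/
noncomputable def G (x : ℕ → ℕ → ℕ → Sq → ℝ) : ℕ → Finset Sq
  | 0 => G0
  | j + 1 => (dbl (2 ^ j) (G x j)).filter fun w => ∀ p, 6 * p + 26 ≤ j → ∀ s ≤ j, ∀ n < 4 ^ (j + 1),
      |bsum (2 ^ p) (dev (G x p) (x p s)) n (j + 1 - p) w| ≤ (2 : ℝ) ^ (j + 1 - p)
termination_by j => j
decreasing_by all_goals omega

lemma card_G0 : G0.card = 2 := by
  classical
  rw [G0, card_pair]
  intro h
  simpa using congrFun h 0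

lemma blk_one_mem_G0 (z : Sq) (a : ℤ) : blk z a 1 ∈ G0 := by
  simp only [G0, mem_insert, mem_singleton]
  cases h : z a
  · left
    ext i
    simp only [blk]
    split_ifs with h1
    · rw [show i = 0 by omega, add_zero, h]
    · rfl
  · right
    ext i
    simp only [blk]
    split_ifs with h1
    · rw [show i = 0 by omega, add_zero, h]; simp
    · simp; omega

lemma supp_G0 : ∀ u ∈ G0, blk u 0 1 = u := by
  intro u hu
  simp only [G0, mem_insert, mem_singleton] at hu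
  rcases hu with rfl | rfl
  · ext i; simp [blk]
  · ext i
    simp only [blk]
    split_ifs with h1
    · simp
    · simp; omega

variable (x : ℕ → ℕ → ℕ → Sq → ℝ)

lemma G_zero : G x 0 = G0 := by rw [G]

lemma G_succ_subset (j : ℕ) : G x (j + 1) ⊆ dbl (2 ^ j) (G x j) := by
  classical
  rw [G]
  exact filter_subset _ _

lemma G_spec {j p s n : ℕ} {w : Sq} (hw : w ∈ G x (j + 1)) (hp : 6 * p + 26 ≤ j) (hs : s ≤ j)
    (hn : n < 4 ^ (j + 1)) :
    |bsum (2 ^ p) (dev (G x p) (x p s)) n (j + 1 - p) w| ≤ (2 : ℝ) ^ (j + 1 - p) := by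
  classical
  rw [G] at hw
  exact (mem_filter.1 hw).2 p hp s hs n hn

lemma supp_G (j : ℕ) : ∀ w ∈ G x j, blk w 0 (2 ^ j) = w := by
  induction j with
  | zero => rw [G_zero]; exact supp_G0
  | succ j ih => exact fun w hw => supp_dbl ih w (G_succ_subset x j hw)

lemma G_subset_tower (p d : ℕ) : G x (p + d) ⊆ tower (2 ^ p) (G x p) d := by
  induction d with
  | zero => exact Subset.refl _
  | succ d ih =>
    refine (G_succ_subset x (p + d)).trans ?_
    rw [tower, pow_add]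
    exact dbl_mono ih

lemma numeric_bound {j : ℕ} (hj : 26 ≤ j) :
    ((j + 1) * (j + 1) * 4 ^ (j + 1) : ℝ) * (2 * Real.exp (-(2 ^ (j / 2) / 32))) ≤
      1 / (64 * 4 ^ j) := by
  have h1 : ∀ k, 13 ≤ k → 32 * (15 + 12 * k) ≤ 2 ^ k := by
    intro k hk
    induction k, hk using Nat.le_induction with
    | base => norm_num
    | succ k hk ih => rw [pow_succ]; omega
  have h2 : 32 * (9 + 6 * j) ≤ 2 ^ (j / 2) := le_trans (by omega) (h1 (j / 2) (by omega))
  have h3 : ((9 + 6 * j : ℕ) : ℝ) ≤ 2 ^ (j / 2) / 32 := by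
    rw [le_div_iff₀ (by norm_num), mul_comm]
    exact_mod_cast h2
  have h4 : (2 : ℝ) ^ (9 + 6 * j) ≤ Real.exp (2 ^ (j / 2) / 32) := by
    calc (2 : ℝ) ^ (9 + 6 * j) ≤ Real.exp 1 ^ (9 + 6 * j) := by
          gcongr
          linarith only [Real.add_one_le_exp 1]
      _ = Real.exp ((9 + 6 * j : ℕ) : ℝ) := by rw [← Real.exp_nat_mul, mul_one]
      _ ≤ _ := Real.exp_le_exp.2 h3
  have h5 : (j + 1 : ℝ) ≤ 2 ^ j := by exact_mod_cast Nat.lt_two_pow_self
  rw [Real.exp_neg, le_div_iff₀ (by positivity)]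
  have h6 : (Real.exp (2 ^ (j / 2) / 32))⁻¹ ≤ ((2 : ℝ) ^ (9 + 6 * j))⁻¹ := by gcongr
  calc _ ≤ (2 ^ j * 2 ^ j * 4 ^ (j + 1) : ℝ) * (2 * ((2 : ℝ) ^ (9 + 6 * j))⁻¹) * (64 * 4 ^ j) := by
        gcongr
    _ = 1 := by
        rw [show (4 : ℝ) = 2 ^ 2 by norm_num, ← pow_mul, ← pow_mul]
        field_simp
        ring

/-- The loss parameter at level `i`. -/
noncomputable def th (i : ℕ) : ℝ := 1 / (32 * 4 ^ i)

lemma th_pos (i : ℕ) : 0 < th i := by unfold th; positivity

lemma th_anti {i j : ℕ} (h : i ≤ j) : th j ≤ th i := by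
  unfold th
  gcongr
  norm_num

lemma card_iter {p e : ℕ}
    (h : ∀ i < p + e, ((G x i).card : ℝ) ^ 2 * Real.exp (-th i) ≤ (G x (i + 1)).card) :
    ((G x p).card : ℝ) ^ (2 ^ e) * Real.exp (-((2 ^ e - 1) * th p)) ≤ (G x (p + e)).card := by
  induction e with
  | zero => simp
  | succ e ih =>
    have h1 := ih fun i hi => h i (by omega)
    have h2 := h (p + e) (by omega)
    refine le_trans ?_ h2
    calc ((G x p).card : ℝ) ^ (2 ^ (e + 1)) * Real.exp (-((2 ^ (e + 1) - 1) * th p))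
        = (((G x p).card : ℝ) ^ (2 ^ e) * Real.exp (-((2 ^ e - 1) * th p))) ^ 2 *
            Real.exp (-th p) := by
          rw [mul_pow, ← pow_mul, ← pow_succ, mul_assoc, ← Real.exp_nat_mul, ← Real.exp_add]
          congr 2
          push_cast
          ring
      _ ≤ _ := by
          gcongr
          exact th_anti (by omega)

variable {x}

lemma card_G_succ (hx : ∀ p s n u, |x p s n u| ≤ 2 ^ p) (j : ℕ) :
    ((G x j).card : ℝ) ^ 2 * Real.exp (-th j) ≤ (G x (j + 1)).card := by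
  classical
  induction j using Nat.strong_induction_on with
  | _ j ih =>
  have hpos : ∀ p ≤ j, 0 < ((G x p).card : ℝ) := by
    intro p hp
    have := card_iter x (p := 0) (e := p) fun i hi => ih i (by omega)
    rw [zero_add] at this
    refine lt_of_lt_of_le ?_ this
    rw [G_zero, card_G0]
    positivity
  set P := dbl (2 ^ j) (G x j) with hP
  have hPc : (P.card : ℝ) = ((G x j).card : ℝ) ^ 2 := card_dbl (supp_G x j)
  set bad : ℕ × ℕ × ℕ → Finset Sq := fun t => P.filter fun w =>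
    ¬ |bsum (2 ^ t.1) (dev (G x t.1) (x t.1 t.2.1)) t.2.2 (j + 1 - t.1) w| ≤ (2 : ℝ) ^ (j + 1 - t.1)
    with hbad
  set I : Finset (ℕ × ℕ × ℕ) :=
    (range (j + 1) ×ˢ range (j + 1) ×ˢ range (4 ^ (j + 1))).filter fun t => 6 * t.1 + 26 ≤ j
    with hI
  have hcover : P ⊆ G x (j + 1) ∪ I.biUnion bad := by
    intro w hw
    rw [mem_union, or_iff_not_imp_left]
    intro hn
    rw [G, mem_filter, not_and] at hn
    have hn2 := hn hw
    push Not at hn2
    obtain ⟨p, hp, s, hs, n, hn3, hlt⟩ := hn2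
    refine mem_biUnion.2 ⟨(p, s, n), ?_, ?_⟩
    · simp only [hI, mem_filter, mem_product, mem_range]
      omega
    · exact mem_filter.2 ⟨hw, not_le.2 hlt⟩
  have hbadc : ∀ t ∈ I, ((bad t).card : ℝ) ≤
      ((G x j).card : ℝ) ^ 2 * (2 * Real.exp (-(2 ^ (j / 2) / 32))) := by
    rintro ⟨p, s, n⟩ ht
    have hp : 6 * p + 26 ≤ j := (mem_filter.1 ht).2
    obtain ⟨e, rfl⟩ : ∃ e, j = p + e := ⟨j - p, by omega⟩
    have hd : p + e + 1 - p = e + 1 := by omega
    have hsub : P ⊆ tower (2 ^ p) (G x p) (e + 1) := by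
      rw [tower, hP, pow_add]
      exact dbl_mono (G_subset_tower x p e)
    have hne : ((G x p).card : ℝ) ≠ 0 := (hpos p (by omega)).ne'
    have h1 := tail_tower_abs (supp_G x p) (X := dev (G x p) (x p s)) (c := 2 ^ p)
      (one_le_pow₀ one_le_two) (fun n u => by
        clear * - x p s n u hx hpos e hd
        have a1 := hx p s n u
        have a2 : |(∑ v ∈ G x p, x p s n v) / (G x p).card| ≤ 2 ^ p := by
          rw [abs_div, Nat.abs_cast, div_le_iff₀ (hpos p (by omega))]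
          refine (abs_sum_le_sum_abs _ _).trans ((sum_le_sum fun v _ => hx p s n v).trans ?_)
          rw [sum_const, nsmul_eq_mul, mul_comm]
        unfold dev
        linarith only [a1, a2, abs_sub (x p s n u) ((∑ v ∈ G x p, x p s n v) / (G x p).card)])
      (fun n => by
        simp only [dev, sum_sub_distrib, sum_const, nsmul_eq_mul]
        field_simp
        ring) (e + 1) n
    have h2 : ((bad (p, s, n)).card : ℝ) ≤ _ := Nat.cast_le.2 (card_le_card
      (show bad (p, s, n) ⊆ (tower (2 ^ p) (G x p) (e + 1)).filter fun w =>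
        ¬ |bsum (2 ^ p) (dev (G x p) (x p s)) n (e + 1) w| ≤ (2 : ℝ) ^ (e + 1) by
        simp only [hbad, hd]
        exact filter_subset_filter _ hsub))
    have h3 := card_iter x (p := p) (e := e) ih
    have h4 : ((G x p).card : ℝ) ^ (2 ^ (e + 1)) ≤
        ((G x (p + e)).card : ℝ) ^ 2 * Real.exp (2 ^ (e + 1) * th p) := by
      clear * - x p e hne h3
      have h5 : (((G x p).card : ℝ) ^ (2 ^ e) * Real.exp (-((2 ^ e - 1) * th p))) ^ 2 ≤
          ((G x (p + e)).card : ℝ) ^ 2 := by gcongr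
      rw [mul_pow, ← pow_mul, ← pow_succ, ← Real.exp_nat_mul, ← le_div_iff₀ (Real.exp_pos _),
        div_eq_mul_inv, ← Real.exp_neg] at h5
      refine h5.trans ?_
      gcongr
      push_cast
      rw [pow_succ]
      linarith only [th_pos p]
    refine h2.trans (h1.trans ?_)
    rw [mul_left_comm (((G x (p + e)).card : ℝ) ^ 2)]
    gcongr 2 * ?_
    refine (mul_le_mul_of_nonneg_right h4 (Real.exp_pos _).le).trans ?_
    rw [mul_assoc, ← Real.exp_add]
    gcongr
    have h6 : (2 : ℝ) ^ ((p + e) / 2) * 4 ^ p ≤ 2 ^ (e + 1) := by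
      rw [show (4 : ℝ) = 2 ^ 2 by norm_num, ← pow_mul, ← pow_add]
      exact pow_le_pow_right₀ one_le_two (by omega)
    have h7 : ((2 : ℝ) ^ p) ^ 2 = 4 ^ p := by
      rw [← pow_mul, mul_comm, pow_mul]; norm_num
    rw [h7, th]
    have h8 : (0 : ℝ) < 4 ^ p := by positivity
    have : (2 : ℝ) ^ (e + 1) * (1 / (32 * 4 ^ p)) + -(2 ^ (e + 1) / (16 * 4 ^ p)) =
        -(2 ^ (e + 1) / 4 ^ p / 32) := by field_simp; ring
    rw [this]
    gcongr
    rwa [le_div_iff₀ h8]
  have hbig : ((I.biUnion bad).card : ℝ) ≤ ((G x j).card : ℝ) ^ 2 * (th j / 2) := by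
    clear * - I bad x j hbadc hI
    by_cases hj : 26 ≤ j
    · have a1 : ((I.biUnion bad).card : ℝ) ≤ ∑ t ∈ I, ((bad t).card : ℝ) := by
        exact_mod_cast card_biUnion_le
      have a2 : (I.card : ℝ) ≤ (j + 1) * (j + 1) * 4 ^ (j + 1) := by
        have := card_filter_le (range (j + 1) ×ˢ range (j + 1) ×ˢ range (4 ^ (j + 1)))
          (fun t => 6 * t.1 + 26 ≤ j)
        simp only [card_product, card_range, ← mul_assoc] at this
        exact_mod_cast this
      refine a1.trans ((sum_le_sum hbadc).trans ?_)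
      rw [sum_const, nsmul_eq_mul, mul_left_comm]
      gcongr ?_ * ?_
      refine le_trans (by gcongr) ((numeric_bound hj).trans (le_of_eq ?_))
      rw [th]
      field_simp
      norm_num
    · have : I = ∅ := by
        rw [hI, filter_eq_empty_iff]
        intro t _
        omega
      rw [this]
      have := th_pos j
      simp only [biUnion_empty, card_empty, Nat.cast_zero]
      positivity
  have h9 : (P.card : ℝ) ≤ (G x (j + 1)).card + (I.biUnion bad).card := by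
    exact_mod_cast (card_le_card hcover).trans (card_union_le _ _)
  have h10 : Real.exp (-th j) ≤ 1 - th j / 2 := by
    clear * - j
    have t1 : th j ≤ 1 := (th_anti (Nat.zero_le j)).trans (by unfold th; norm_num)
    have t2 := th_pos j
    rw [Real.exp_neg, inv_le_iff_one_le_mul₀ (Real.exp_pos _)]
    linarith only [t1, t2, Real.add_one_le_exp (th j), mul_nonneg_of_nonpos_of_nonpos (Mathlib.Tactic.Linarith.sub_nonpos_of_le t1) (le_of_lt (Mathlib.Tactic.Linarith.sub_neg_of_lt t2)), mul_nonneg_of_nonpos_of_nonpos (Mathlib.Tactic.Linarith.sub_nonpos_of_le t1) (Mathlib.Tactic.Linarith.sub_nonpos_of_le (Real.add_one_le_exp (th j)))]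
  have h11 : ((G x j).card : ℝ) ^ 2 * Real.exp (-th j) ≤
      ((G x j).card : ℝ) ^ 2 * (1 - th j / 2) := by clear * - x j h10; gcongr
  linarith only [hPc, hbig, h9, h11]

lemma card_G_ge (hx : ∀ p s n u, |x p s n u| ≤ 2 ^ p) (j : ℕ) :
    Real.exp (1 / 2) ^ (2 ^ j) ≤ (G x j).card := by
  have h := card_iter x (p := 0) (e := j) fun i _ => card_G_succ hx i
  rw [zero_add, G_zero, card_G0] at h
  refine le_trans ?_ h
  rw [← Real.exp_nat_mul, show ((2 : ℕ) : ℝ) = Real.exp (Real.log 2) by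
    rw [Real.exp_log (by norm_num)]; norm_num, ← Real.exp_nat_mul, ← Real.exp_add]
  gcongr
  have := Real.log_two_gt_d9
  have h2 : (0 : ℝ) < 2 ^ j := by positivity
  unfold th
  push_cast
  linarith only [h2, this, mul_pos_of_neg_of_neg (Mathlib.Tactic.Linarith.sub_neg_of_lt this) (Mathlib.Tactic.Linarith.sub_neg_of_lt h2)]

end Pool.Agent.Work.MP_2872f6_an
end

-- merged part: Pool.Agent.Work.MP_2872f6_an.Subshift
section
/-!
# The subshift of all concatenations of good blocks at all levels, and its word count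
-/

open Finset Filter

namespace Pool.Agent.Work.MP_2872f6_an

variable (x : ℕ → ℕ → ℕ → Sq → ℝ)

/-- Bi-infinite concatenations of good blocks of level `j`. -/
def Yl (j : ℕ) : Set Sq := {z | ∃ r : ℤ, ∀ i : ℤ, blk z (r + i * 2 ^ j) (2 ^ j) ∈ G x j}

/-- The subshift. -/
def Y : Set Sq := ⋂ j, Yl x j

variable {x}

lemma shift_mem_Yl {j : ℕ} {z : Sq} (hz : z ∈ Yl x j) (k : ℤ) : shift k z ∈ Yl x j := by
  obtain ⟨r, hr⟩ := hz
  refine ⟨r - k, fun i => ?_⟩
  rw [blk_shift, show r - k + i * 2 ^ j + k = r + i * 2 ^ j by ring]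
  exact hr i

lemma shift_mem_Y {z : Sq} (hz : z ∈ Y x) (k : ℤ) : shift k z ∈ Y x :=
  Set.mem_iInter.2 fun j => shift_mem_Yl (Set.mem_iInter.1 hz j) k

lemma mem_Yl_iff {j : ℕ} {z : Sq} : z ∈ Yl x j ↔
    ∃ r : ℕ, r < 2 ^ j ∧ ∀ i : ℤ, blk z (r + i * 2 ^ j) (2 ^ j) ∈ G x j := by
  refine ⟨fun ⟨r, hr⟩ => ?_, fun ⟨r, _, hr⟩ => ⟨r, hr⟩⟩
  have hp : (0 : ℤ) < 2 ^ j := by positivity
  have h0 := Int.emod_nonneg r hp.ne'
  have h1 := Int.emod_lt_of_pos r hp
  refine ⟨(r % 2 ^ j).toNat, ?_, fun i => ?_⟩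
  · zify
    rwa [Int.toNat_of_nonneg h0]
  · rw [Int.toNat_of_nonneg h0]
    have := hr (i - r / 2 ^ j)
    rwa [show r + (i - r / 2 ^ j) * 2 ^ j = r % 2 ^ j + i * 2 ^ j by
      rw [Int.emod_def]; ring] at this

lemma continuous_blk (a : ℤ) (L : ℕ) : Continuous fun z : Sq => blk z a L := by
  refine continuous_pi fun i => ?_
  simp only [blk]
  split_ifs
  · exact continuous_apply _
  · exact continuous_const

lemma continuous_shift (k : ℤ) : Continuous (shift k) :=
  continuous_pi fun _ => continuous_apply _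

lemma isClosed_Yl (j : ℕ) : IsClosed (Yl x j) := by
  have : Yl x j = ⋃ r ∈ Set.Iio (2 ^ j), ⋂ i : ℤ,
      (fun z : Sq => blk z ((r : ℕ) + i * 2 ^ j) (2 ^ j)) ⁻¹' (G x j : Set Sq) := by
    ext z
    simp [mem_Yl_iff]
  rw [this]
  exact (Set.finite_Iio _).isClosed_biUnion fun r _ => isClosed_iInter fun i =>
    (G x j).finite_toSet.isClosed.preimage (continuous_blk _ _)

lemma blk_mem_G_of_succ {j : ℕ} {z : Sq} {a : ℤ} (h : blk z a (2 ^ (j + 1)) ∈ G x (j + 1)) :
    blk z a (2 ^ j) ∈ G x j ∧ blk z (a + 2 ^ j) (2 ^ j) ∈ G x j := by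
  obtain ⟨u, hu, v, hv, e⟩ := mem_dbl.1 (G_succ_subset x j h)
  have e1 := congrArg (fun w => blk w 0 (2 ^ j)) e
  have e2 := congrArg (fun w => blk w ((2 ^ j : ℕ) + 0) (2 ^ j)) e
  simp only [blk_cat_left _ _ (show (0 : ℤ) + (2 ^ j : ℕ) ≤ (2 ^ j : ℕ) by simp),
    blk_cat_right _ _ le_rfl] at e1 e2
  rw [supp_G x j u hu, blk_blk _ le_rfl (by push_cast; rw [pow_succ]; linarith only [pow_pos (show (0 : ℤ) < 2 by norm_num) j]), add_zero] at e1
  rw [supp_G x j v hv, blk_blk _ (by positivity) (by push_cast; rw [pow_succ]; linarith),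
    add_zero] at e2
  push_cast at e2
  rw [← e1, ← e2]
  exact ⟨hu, hv⟩

lemma Yl_succ_subset (j : ℕ) : Yl x (j + 1) ⊆ Yl x j := by
  rintro z ⟨r, hr⟩
  refine ⟨r, fun i => ?_⟩
  obtain ⟨k, rfl | rfl⟩ := Int.even_or_odd' i
  · have := (blk_mem_G_of_succ (hr k)).1
    rwa [show r + k * 2 ^ (j + 1) = r + 2 * k * 2 ^ j by ring] at this
  · have := (blk_mem_G_of_succ (hr k)).2
    rwa [show r + k * 2 ^ (j + 1) + 2 ^ j = r + (2 * k + 1) * 2 ^ j by ring] at this

lemma Yl_antitone : Antitone (Yl x) := antitone_nat_of_succ_le Yl_succ_subset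

lemma exists_mem_Yl {j : ℕ} {w : Sq} (hw : w ∈ G x j) : ∃ z ∈ Yl x j, blk z 0 (2 ^ j) = w := by
  have key : ∀ i : ℤ, blk (fun k => w (k % 2 ^ j)) (0 + i * 2 ^ j) (2 ^ j) = w := by
    intro i
    conv_rhs => rw [← supp_G x j w hw]
    ext k
    simp only [blk]
    split_ifs with h
    · congr 1
      push_cast at h
      rw [zero_add, zero_add, add_comm, Int.add_mul_emod_self_right, Int.emod_eq_of_lt h.1 h.2]
    · rfl
  refine ⟨fun k => w (k % 2 ^ j), ⟨0, fun i => by rw [key]; exact hw⟩, ?_⟩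
  simpa using key 0

lemma blk_mem_tower (z : Sq) (k : ℕ) (a : ℤ) : blk z a (2 ^ k) ∈ tower 1 G0 k := by
  induction k generalizing a with
  | zero => exact blk_one_mem_G0 z a
  | succ k ih =>
    rw [tower, one_mul, pow_succ, blk_two_mul]
    exact mem_dbl.2 ⟨_, ih _, _, ih _, rfl⟩

open Classical in
/-- Words of length `2 ^ k` occurring in a set of sequences. -/
noncomputable def words (S : Set Sq) (k : ℕ) : Finset Sq :=
  (tower 1 G0 k).filter fun w => ∃ z ∈ S, blk z 0 (2 ^ k) = w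

lemma mem_words {S : Set Sq} {k : ℕ} {w : Sq} : w ∈ words S k ↔ ∃ z ∈ S, blk z 0 (2 ^ k) = w := by
  classical
  rw [words, mem_filter]
  exact ⟨fun h => h.2, fun ⟨z, hz, e⟩ => ⟨e ▸ blk_mem_tower z k 0, z, hz, e⟩⟩

lemma card_words_le (j k e : ℕ) :
    (words (Yl x j) (k + e)).card ≤ (words (Yl x j) k).card ^ (2 ^ e) := by
  induction e with
  | zero => simp
  | succ e ih =>
    have : words (Yl x j) (k + (e + 1)) ⊆ dbl (2 ^ (k + e)) (words (Yl x j) (k + e)) := by
      intro w hw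
      obtain ⟨z, hz, rfl⟩ := mem_words.1 hw
      rw [← add_assoc, pow_succ, blk_two_mul]
      exact mem_dbl.2 ⟨_, mem_words.2 ⟨z, hz, rfl⟩, _,
        mem_words.2 ⟨_, shift_mem_Yl hz _, blk_shift _ _ _ _⟩, rfl⟩
    refine (card_le_card this).trans ((card_dbl_le _ _).trans ?_)
    rw [pow_succ 2 e, pow_mul]
    gcongr

lemma card_words_Yl_ge (hx : ∀ p s n u, |x p s n u| ≤ 2 ^ p) {j k : ℕ} (h : k ≤ j) :
    Real.exp (1 / 2) ^ (2 ^ k) ≤ (words (Yl x j) k).card := by
  obtain ⟨e, rfl⟩ := Nat.exists_eq_add_of_le h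
  have h1 : (G x (k + e)).card ≤ (words (Yl x (k + e)) (k + e)).card :=
    card_le_card fun w hw => mem_words.2 (exists_mem_Yl hw)
  have h2 := card_G_ge hx (k + e)
  have h3 : (Real.exp (1 / 2) ^ (2 ^ k)) ^ (2 ^ e) ≤
      ((words (Yl x (k + e)) k).card : ℝ) ^ (2 ^ e) := by
    rw [← pow_mul, ← pow_add]
    refine h2.trans ?_
    exact_mod_cast h1.trans (card_words_le _ _ _)
  exact (pow_le_pow_iff_left₀ (by positivity) (by positivity) (by positivity)).1 h3

lemma card_words_Y_ge (hx : ∀ p s n u, |x p s n u| ≤ 2 ^ p) (k : ℕ) :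
    Real.exp (1 / 2) ^ (2 ^ k) ≤ (words (Y x) k).card := by
  have h1 : ∀ w ∈ tower 1 G0 k, ∀ᶠ j in atTop, w ∈ words (Yl x j) k → w ∈ words (Y x) k := by
    intro w _
    by_cases h : ∀ j, w ∈ words (Yl x j) k
    · refine Eventually.of_forall fun _ _ => ?_
      have hc : ∀ j, IsClosed (Yl x j ∩ {z | blk z 0 (2 ^ k) = w}) := fun j =>
        (isClosed_Yl j).inter (isClosed_eq (continuous_blk _ _) continuous_const)
      obtain ⟨z, hz⟩ := IsCompact.nonempty_iInter_of_sequence_nonempty_isCompact_isClosed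
        (fun j => Yl x j ∩ {z | blk z 0 (2 ^ k) = w})
        (fun j => Set.inter_subset_inter_left _ (Yl_succ_subset j))
        (fun j => mem_words.1 (h j)) (hc 0).isCompact hc
      rw [Set.mem_iInter] at hz
      exact mem_words.2 ⟨z, Set.mem_iInter.2 fun j => (hz j).1, (hz 0).2⟩
    · push Not at h
      obtain ⟨j0, hj0⟩ := h
      filter_upwards [eventually_ge_atTop j0] with j hj hw
      obtain ⟨z, hz, e⟩ := mem_words.1 hw
      exact absurd (mem_words.2 ⟨z, Yl_antitone hj hz, e⟩) hj0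
  obtain ⟨j, hj, hjk⟩ := (((eventually_all_finset _).2 h1).and (eventually_ge_atTop k)).exists
  refine (card_words_Yl_ge hx hjk).trans (Nat.cast_le.2 (card_le_card fun w hw => hj w ?_ hw))
  obtain ⟨z, -, rfl⟩ := mem_words.1 hw
  exact blk_mem_tower z k 0

/-- Many separated points in the subshift. -/
lemma exists_separated (hx : ∀ p s n u, |x p s n u| ≤ 2 ^ p) (k : ℕ) :
    ∃ W : Finset Sq, (W : Set Sq) ⊆ Y x ∧ Real.exp (1 / 2) ^ (2 ^ k) ≤ W.card ∧
      ∀ z ∈ W, ∀ z' ∈ W, z ≠ z' → ∃ i : ℕ, i < 2 ^ k ∧ z i ≠ z' i := by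
  classical
  have h : ∀ w : Sq, ∃ z : Sq, w ∈ words (Y x) k → z ∈ Y x ∧ blk z 0 (2 ^ k) = w := by
    intro w
    by_cases hw : w ∈ words (Y x) k
    · obtain ⟨z, hz⟩ := mem_words.1 hw
      exact ⟨z, fun _ => hz⟩
    · exact ⟨w, fun h => absurd h hw⟩
  choose c hc using h
  refine ⟨(words (Y x) k).image c, ?_, ?_, ?_⟩
  · intro z hz
    obtain ⟨w, hw, rfl⟩ := mem_image.1 hz
    exact (hc w hw).1
  · rw [card_image_of_injOn]
    · exact card_words_Y_ge hx k
    · intro w hw w' hw' e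
      rw [← (hc w hw).2, ← (hc w' hw').2, e]
  · intro z hz z' hz' hne
    obtain ⟨w, hw, rfl⟩ := mem_image.1 hz
    obtain ⟨w', hw', rfl⟩ := mem_image.1 hz'
    by_contra hcon
    push Not at hcon
    apply hne
    congr 1
    rw [← (hc w hw).2, ← (hc w' hw').2]
    ext i
    simp only [blk]
    split_ifs with h
    · obtain ⟨m, rfl⟩ := Int.eq_ofNat_of_zero_le h.1
      rw [zero_add]
      exact hcon m (by exact_mod_cast h.2)
    · rfl

end Pool.Agent.Work.MP_2872f6_an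
end

-- merged part: Pool.Agent.Work.MP_2872f6_an.DS
section
/-!
# A positive entropy subshift uniformly uncorrelated to an aperiodic sequence
-/

open Finset Filter

namespace Pool.Agent.Work.MP_2872f6_an

lemma sum_range_mul (Q L : ℕ) (f : ℕ → ℝ) :
    ∑ m ∈ range (Q * L), f m = ∑ l ∈ range Q, ∑ a ∈ range L, f (l * L + a) := by
  induction Q with
  | zero => simp
  | succ Q ih => rw [Nat.succ_mul, sum_range_add, ih, sum_range_succ]

lemma exists_window {φ : Sq → ℝ} (hφ : Continuous φ) {δ : ℝ} (hδ : 0 < δ) :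
    ∃ w : ℕ, ∀ z z' : Sq, (∀ i : ℤ, |i| ≤ w → z i = z' i) → |φ z - φ z'| ≤ δ := by
  by_contra hcon
  push Not at hcon
  have hc : ∀ w : ℕ, IsClosed {p : Sq × Sq | (∀ i : ℤ, |i| ≤ w → p.1 i = p.2 i) ∧
      δ ≤ |φ p.1 - φ p.2|} := by
    intro w
    rw [Set.ofPred_and]
    refine IsClosed.inter ?_ (isClosed_le continuous_const (by fun_prop))
    simp only [Set.ofPred_forall]
    exact isClosed_iInter fun i => isClosed_iInter fun _ => isClosed_eq (by fun_prop) (by fun_prop)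
  obtain ⟨p, hp⟩ := IsCompact.nonempty_iInter_of_sequence_nonempty_isCompact_isClosed
    (fun w : ℕ => {p : Sq × Sq | (∀ i : ℤ, |i| ≤ w → p.1 i = p.2 i) ∧ δ ≤ |φ p.1 - φ p.2|})
    (fun w p hp => ⟨fun i hi => hp.1 i (by push_cast; omega), hp.2⟩)
    (fun w => by
      obtain ⟨z, z', h1, h2⟩ := hcon w
      exact ⟨(z, z'), h1, h2.le⟩) (hc 0).isCompact hc
  rw [Set.mem_iInter] at hp
  have : p.1 = p.2 := funext fun i => (hp i.natAbs).1 i (by simp)
  have h2 := (hp 0).2
  rw [this, sub_self, abs_zero] at h2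
  linarith

lemma exists_scale {δ : ℝ} (hδ : 0 < δ) (J : ℕ) :
    ∀ᶠ N : ℕ in atTop, ∃ j, J ≤ j ∧ (2 : ℝ) ^ j ≤ δ * N ∧ N ≤ 4 ^ j := by
  obtain ⟨t, ht⟩ := exists_pow_lt_of_lt_one hδ (show (1 / 2 : ℝ) < 1 by norm_num)
  filter_upwards [eventually_ge_atTop (2 ^ (J + 2 * t + 1))] with N hN
  have hN0 : N ≠ 0 := by
    have := Nat.two_pow_pos (J + 2 * t + 1)
    omega
  have h1 : J + 2 * t + 1 ≤ Nat.log 2 N := Nat.le_log_of_pow_le one_lt_two hN
  obtain ⟨j, hj⟩ : ∃ j, Nat.log 2 N = j + t := ⟨Nat.log 2 N - t, by omega⟩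
  have h2 := Nat.pow_log_le_self 2 hN0
  have h3 := Nat.lt_pow_succ_log_self one_lt_two N
  rw [hj] at h1 h2 h3
  refine ⟨j, by omega, ?_, ?_⟩
  · have h4 : (2 : ℝ) ^ j * 2 ^ t ≤ N := by exact_mod_cast (pow_add 2 j t ▸ h2)
    rw [one_div, inv_pow] at ht
    calc (2 : ℝ) ^ j = (2 ^ t)⁻¹ * (2 ^ j * 2 ^ t) := by field_simp
      _ ≤ δ * N := by gcongr
  · refine h3.le.trans ?_
    rw [show 4 = 2 ^ 2 by norm_num, ← pow_mul]
    exact Nat.pow_le_pow_right two_pos (by omega)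

/-- Correlation of a block of level `p` placed at position `n`. -/
def corr (φ : ℕ → Sq → ℝ) (y : ℕ → ℝ) (p s n : ℕ) (u : Sq) : ℝ :=
  ∑ a ∈ range (2 ^ p), φ s (shift a u) * y (n + a)

variable {φ : ℕ → Sq → ℝ} {y : ℕ → ℝ}

lemma abs_term_le (hy : ∀ n, |y n| ≤ 1) {c : ℝ} (hc : |c| ≤ 1) (n : ℕ) : |c * y n| ≤ 1 := by
  rw [abs_mul]
  exact mul_le_one₀ hc (abs_nonneg _) (hy n)

lemma abs_sum_le_card {s : Finset ℕ} {f : ℕ → ℝ} (hf : ∀ n, |f n| ≤ 1) :
    |∑ n ∈ s, f n| ≤ s.card := by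
  refine (abs_sum_le_sum_abs _ _).trans ((sum_le_sum fun n _ => hf n).trans ?_)
  simp

lemma abs_corr_le (hy : ∀ n, |y n| ≤ 1) (hφ : ∀ s z, |φ s z| ≤ 1) (p s n : ℕ) (u : Sq) :
    |corr φ y p s n u| ≤ 2 ^ p := by
  have := abs_sum_le_card (s := range (2 ^ p))
    (f := fun a => φ s (shift a u) * y (n + a)) fun a => abs_term_le hy (hφ _ _) _
  simpa [corr] using this

lemma block_approx (hy : ∀ n, |y n| ≤ 1) (hφ : ∀ s z, |φ s z| ≤ 1) {s w : ℕ} {δ : ℝ}
    (hδ : 0 ≤ δ) (hw : ∀ z z' : Sq, (∀ i : ℤ, |i| ≤ w → z i = z' i) → |φ s z - φ s z'| ≤ δ)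
    (p b : ℕ) (z : Sq) :
    |∑ a ∈ range (2 ^ p), φ s (shift (b + a : ℕ) z) * y (b + a) -
      corr φ y p s b (blk z b (2 ^ p))| ≤ δ * 2 ^ p + 4 * w := by
  rw [corr, ← sum_sub_distrib]
  have h1 : ∀ a ∈ range (2 ^ p), |φ s (shift (b + a : ℕ) z) * y (b + a) -
      φ s (shift a (blk z b (2 ^ p))) * y (b + a)| ≤
      δ + (if a ∈ range w ∪ Ico (2 ^ p - w) (2 ^ p) then 2 else 0) := by
    intro a ha
    rw [← sub_mul, abs_mul]
    refine (mul_le_of_le_one_right (abs_nonneg _) (hy _)).trans ?_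
    split_ifs with h
    · linarith only [hδ, hφ, abs_sub (φ s (shift (b + a : ℕ) z)) (φ s (shift a (blk z b (2 ^ p)))),
        hφ s (shift (b + a : ℕ) z), hφ s (shift a (blk z b (2 ^ p)))]
    · rw [add_zero]
      refine hw _ _ fun i hi => ?_
      simp only [mem_union, mem_range, mem_Ico, not_or, not_and, not_lt] at h ha
      simp only [shift, blk]
      rw [abs_le] at hi
      rw [if_pos (by omega)]
      congr 1
      push_cast
      ring
  refine (abs_sum_le_sum_abs _ _).trans ((sum_le_sum h1).trans ?_)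
  rw [sum_add_distrib, ← sum_filter, sum_const, sum_const, card_range, nsmul_eq_mul, nsmul_eq_mul]
  have h2 : ((range (2 ^ p)).filter fun a => a ∈ range w ∪ Ico (2 ^ p - w) (2 ^ p)).card ≤
      2 * w := by
    refine (card_le_card (fun a ha => (mem_filter.1 ha).2)).trans ((card_union_le _ _).trans ?_)
    rw [card_range, Nat.card_Ico]
    omega
  have h3 : (((range (2 ^ p)).filter fun a => a ∈ range w ∪ Ico (2 ^ p - w) (2 ^ p)).card : ℝ) ≤
      2 * w := by exact_mod_cast h2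
  push_cast
  linarith only [h3]

theorem uniform_disjoint (hy : ∀ n, |y n| ≤ 1) (hφ : ∀ s z, |φ s z| ≤ 1)
    (hc : ∀ s, Continuous (φ s))
    (hap : ∀ q : ℕ, 0 < q → ∀ δ > 0, ∃ M0 : ℝ, ∀ c : ℕ → ℝ, (∀ n, |c n| ≤ 1) →
      (∀ n, c (n + q) = c n) → ∀ M : ℕ, |∑ n ∈ range M, c n * y n| ≤ δ * M + M0)
    (s : ℕ) {ε : ℝ} (hε : 0 < ε) :
    ∀ᶠ N : ℕ in atTop, ∀ z ∈ Y (corr φ y), |∑ n ∈ range N, φ s (shift n z) * y n| ≤ ε * N := by
  set x := corr φ y with hx
  set δ := ε / 8 with hδ'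
  have hδ : 0 < δ := by positivity
  obtain ⟨w, hw⟩ := exists_window (hc s) hδ
  obtain ⟨p, hp⟩ := exists_pow_lt_of_lt_one (show 0 < δ / (4 * w + 1) by positivity)
    (show (1 / 2 : ℝ) < 1 by norm_num)
  have hp' : (4 * w + 1 : ℝ) ≤ δ * 2 ^ p := by
    rw [one_div, inv_pow, lt_div_iff₀ (by positivity), inv_mul_lt_iff₀ (by positivity)] at hp
    linarith only [hp]
  obtain ⟨M0, hM0⟩ := hap (2 ^ p) (by positivity) δ hδ
  have hM1 : ∀ᶠ N : ℕ in atTop, M0 ≤ δ * N :=
    (tendsto_natCast_atTop_atTop.const_mul_atTop hδ).eventually_ge_atTop M0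
  filter_upwards [exists_scale hδ (6 * p + 27 + s), hM1] with N ⟨j, hj, hjN, hN4⟩ hM1 z hz
  obtain ⟨r, hr, hrG⟩ := mem_Yl_iff.1 (Set.mem_iInter.1 hz j)
  obtain ⟨d, rfl⟩ : ∃ d, j = p + d := ⟨j - p, by omega⟩
  set g : ℕ → ℝ := fun n => φ s (shift n z) * y n with hg
  have hg1 : ∀ n, |g n| ≤ 1 := fun n => abs_term_le hy (hφ _ _) _
  have hr' : (r : ℝ) ≤ δ * N := le_trans (by exact_mod_cast hr.le) hjN
  rcases le_or_gt N r with hNr | hNr
  · refine (abs_sum_le_card hg1).trans ?_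
    have : (N : ℝ) ≤ r := by exact_mod_cast hNr
    have : 0 ≤ δ * N := by positivity
    have : ε * N = 8 * (δ * N) := by rw [hδ']; ring
    rw [card_range]
    linarith
  set I := (N - r) / 2 ^ (p + d) with hI
  have hI1 : r + I * 2 ^ (p + d) ≤ N := by
    have := Nat.div_mul_le_self (N - r) (2 ^ (p + d))
    rw [← hI] at this
    omega
  have hI2 : N < r + I * 2 ^ (p + d) + 2 ^ (p + d) := by
    have := Nat.lt_div_mul_add (a := N - r) (b := 2 ^ (p + d)) (by positivity)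
    rw [← hI] at this
    omega
  obtain ⟨T, hT⟩ := Nat.exists_eq_add_of_le hI1
  have hT' : (T : ℝ) ≤ δ * N := le_trans (by exact_mod_cast (by omega : T ≤ 2 ^ (p + d))) hjN
  set Q := I * 2 ^ d with hQ
  have hQ' : I * 2 ^ (p + d) = Q * 2 ^ p := by rw [hQ]; ring
  have hQN : (Q : ℝ) * 2 ^ p ≤ N := by exact_mod_cast (by omega : Q * 2 ^ p ≤ N)
  have hsplit : ∑ n ∈ range N, g n = ∑ n ∈ range r, g n +
      ∑ l ∈ range Q, ∑ a ∈ range (2 ^ p), g (r + l * 2 ^ p + a) +
      ∑ n ∈ range T, g (r + I * 2 ^ (p + d) + n) := by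
    conv_lhs => rw [hT, sum_range_add, sum_range_add, hQ', sum_range_mul]
    simp only [add_assoc, hQ']
  have b1 : |∑ n ∈ range r, g n| ≤ δ * N := (abs_sum_le_card hg1).trans (by simpa using hr')
  have b2 : |∑ n ∈ range T, g (r + I * 2 ^ (p + d) + n)| ≤ δ * N :=
    (abs_sum_le_card fun n => hg1 _).trans (by simpa using hT')
  have b3 : |∑ l ∈ range Q, ∑ a ∈ range (2 ^ p), g (r + l * 2 ^ p + a) -
      ∑ l ∈ range Q, x p s (r + l * 2 ^ p) (blk z (r + l * 2 ^ p : ℕ) (2 ^ p))| ≤ 2 * (δ * N) := by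
    clear * - Q p g r x s z δ N φ y w hy hφ hδ hw ε hp' hQN hε
    rw [← sum_sub_distrib]
    refine (abs_sum_le_sum_abs _ _).trans ((sum_le_sum fun l _ =>
      block_approx hy hφ hδ.le hw p (r + l * 2 ^ p) z).trans ?_)
    rw [sum_const, card_range, nsmul_eq_mul]
    calc (Q : ℝ) * (δ * 2 ^ p + 4 * w) ≤ Q * (δ * 2 ^ p + δ * 2 ^ p) :=
          mul_le_mul_of_nonneg_left (by linarith) Q.cast_nonneg
      _ = 2 * (δ * (Q * 2 ^ p)) := by ring
      _ ≤ _ := by gcongr
  have b4 : |∑ l ∈ range Q, dev (G x p) (x p s) (r + l * 2 ^ p)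
      (blk z (r + l * 2 ^ p : ℕ) (2 ^ p))| ≤ δ * N := by
    clear * - Q x p s r z δ N I d hQ hj T hrG hN4 hI1 hT hQ' w ε hp' hQN hε
    rw [hQ, sum_range_mul]
    have : ∀ i ∈ range I, |∑ a ∈ range (2 ^ d), dev (G x p) (x p s) (r + (i * 2 ^ d + a) * 2 ^ p)
        (blk z (r + (i * 2 ^ d + a) * 2 ^ p : ℕ) (2 ^ p))| ≤ 2 ^ d := by
      intro i hi
      obtain ⟨j', hj'⟩ : ∃ j', p + d = j' + 1 := ⟨p + d - 1, by omega⟩
      have h1 := hrG i
      rw [hj'] at h1
      have hi' : (i + 1) * 2 ^ (p + d) ≤ I * 2 ^ (p + d) := by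
        gcongr
        exact mem_range.1 hi
      have h2 := G_spec x h1 (p := p) (s := s) (n := r + i * 2 ^ (p + d)) (by omega) (by omega)
        (by
          rw [← hj']
          have := Nat.two_pow_pos (p + d)
          rw [add_mul] at hi'
          omega)
      rw [← hj', show p + d - p = d by omega] at h2
      refine le_of_eq_of_le ?_ h2
      congr 1
      refine sum_congr rfl fun a ha => ?_
      have ha' : (a + 1) * 2 ^ p ≤ 2 ^ (p + d) := by
        rw [pow_add, mul_comm]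
        gcongr
        exact mem_range.1 ha
      rw [blk_blk _ (by positivity) (by zify at ha'; push_cast; linarith only [ha'])]
      congr 1
      · ring
      · congr 1
        push_cast
        ring
    refine (abs_sum_le_sum_abs _ _).trans ((sum_le_sum this).trans ?_)
    rw [sum_const, card_range, nsmul_eq_mul]
    have h5 : (Q : ℝ) = I * 2 ^ d := by rw [hQ]; push_cast; ring
    rw [← h5]
    have : (0 : ℝ) ≤ w := w.cast_nonneg
    calc (Q : ℝ) = Q * 1 := (mul_one _).symm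
      _ ≤ Q * (δ * 2 ^ p) := by gcongr; linarith only [hp']
      _ = δ * (Q * 2 ^ p) := by ring
      _ ≤ _ := by gcongr
  set φb : ℤ → ℝ := fun a => (∑ v ∈ G x p, φ s (shift a v)) / (G x p).card with hφb
  have hφb1 : ∀ a, |φb a| ≤ 1 := by
    intro a
    simp only [hφb]
    rw [abs_div, Nat.abs_cast]
    refine div_le_one_of_le₀ ?_ (Nat.cast_nonneg _)
    refine (abs_sum_le_sum_abs _ _).trans ((sum_le_sum fun v _ => hφ s _).trans ?_)
    simp
  set c : ℕ → ℝ := fun n => φb (((n : ℤ) - r) % 2 ^ p) with hcdef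
  have hc1 : ∀ n, |c n| ≤ 1 := fun n => hφb1 _
  have hc2 : ∀ n, c (n + 2 ^ p) = c n := by
    intro n
    simp only [hcdef]
    congr 1
    push_cast
    rw [show (n : ℤ) + 2 ^ p - r = n - r + 2 ^ p by ring, Int.add_emod_right]
  have b5 : |∑ l ∈ range Q, (∑ v ∈ G x p, x p s (r + l * 2 ^ p) v) / (G x p).card| ≤
      3 * (δ * N) := by
    clear * - Q x p s r c y φ hx φb hcdef hφb δ N M0 hM0 hc1 hc2 hy d hI1 T hT hQ' ε hε hM1 hr'
    have e : ∑ l ∈ range Q, (∑ v ∈ G x p, x p s (r + l * 2 ^ p) v) / (G x p).card =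
        ∑ n ∈ range (r + Q * 2 ^ p), c n * y n - ∑ n ∈ range r, c n * y n := by
      rw [sum_range_add, add_sub_cancel_left, sum_range_mul Q (2 ^ p)]
      refine sum_congr rfl fun l _ => ?_
      simp only [hx, corr]
      rw [sum_comm, sum_div]
      refine sum_congr rfl fun a ha => ?_
      have ha' : ((r + (l * 2 ^ p + a) : ℕ) - r : ℤ) % 2 ^ p = a := by
        push_cast
        rw [add_sub_cancel_left, add_comm, Int.add_mul_emod_self_right,
          Int.emod_eq_of_lt (by positivity) (by exact_mod_cast mem_range.1 ha)]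
      simp only [hcdef, ha', hφb]
      rw [← sum_mul, add_assoc]
      ring
    rw [e]
    have t1 := hM0 c hc1 hc2 (r + Q * 2 ^ p)
    have t2 := (abs_sum_le_card (s := range r) fun n => abs_term_le hy (hc1 n) n)
    rw [card_range] at t2
    have t3 : δ * ((r + Q * 2 ^ p : ℕ) : ℝ) ≤ δ * N := by
      gcongr
      omega
    linarith only [hM1, hr', t1, t2, t3, abs_sub (∑ n ∈ range (r + Q * 2 ^ p), c n * y n) (∑ n ∈ range r, c n * y n)]
  have e2 : ∑ l ∈ range Q, x p s (r + l * 2 ^ p) (blk z (r + l * 2 ^ p : ℕ) (2 ^ p)) =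
      ∑ l ∈ range Q, dev (G x p) (x p s) (r + l * 2 ^ p) (blk z (r + l * 2 ^ p : ℕ) (2 ^ p)) +
      ∑ l ∈ range Q, (∑ v ∈ G x p, x p s (r + l * 2 ^ p) v) / (G x p).card := by
    rw [← sum_add_distrib]
    simp [dev]
  rw [e2] at b3
  rw [hsplit]
  rw [abs_le] at b1 b2 b3 b4 b5 ⊢
  have : ε * N = 8 * (δ * N) := by rw [hδ']; ring
  constructor <;> linarith only [b1, b2, b3, b4, b5, this, b1.1, b1.2, b2.1, b2.2, b3.1, b3.2, b4.1, b4.2, b5.1, b5.2]

/-- A Downarowicz-Serafin type theorem with uniformity. -/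
theorem exists_subshift (hy : ∀ n, |y n| ≤ 1) (hφ : ∀ s z, |φ s z| ≤ 1)
    (hc : ∀ s, Continuous (φ s))
    (hap : ∀ q : ℕ, 0 < q → ∀ δ > 0, ∃ M0 : ℝ, ∀ c : ℕ → ℝ, (∀ n, |c n| ≤ 1) →
      (∀ n, c (n + q) = c n) → ∀ M : ℕ, |∑ n ∈ range M, c n * y n| ≤ δ * M + M0) :
    ∃ Z : Set Sq, (∀ z ∈ Z, ∀ k, shift k z ∈ Z) ∧
      (∀ k : ℕ, ∃ W : Finset Sq, (W : Set Sq) ⊆ Z ∧ Real.exp (1 / 2) ^ (2 ^ k) ≤ W.card ∧
        ∀ z ∈ W, ∀ z' ∈ W, z ≠ z' → ∃ i : ℕ, i < 2 ^ k ∧ z i ≠ z' i) ∧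
      ∀ s, ∀ ε > 0, ∀ᶠ N : ℕ in atTop, ∀ z ∈ Z,
        |∑ n ∈ range N, φ s (shift n z) * y n| ≤ ε * N :=
  ⟨Y (corr φ y), fun _ hz k => shift_mem_Y hz k, exists_separated (abs_corr_le hy hφ),
    fun s _ hε => uniform_disjoint hy hφ hc hap s hε⟩

end Pool.Agent.Work.MP_2872f6_an
end

-- merged part: Pool.Agent.Work.MP_2872f6_an.Sums
section
/-!
# Auxiliary lemmas on sums against the Moebius function
-/

open Filter Topology Finset
open scoped ArithmeticFunction.Moebius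

namespace Pool.Agent.Work.MP_2872f6_an

/-- The real valued Moebius function. -/
noncomputable def mu (n : ℕ) : ℝ := (μ n : ℝ)

lemma abs_mu_le (n : ℕ) : |mu n| ≤ 1 := by
  unfold mu
  exact_mod_cast ArithmeticFunction.abs_moebius_le_one

lemma sum_range_succ_mu (c : ℕ → ℝ) (N : ℕ) :
    ∑ n ∈ range (N + 1), c n * mu n = ∑ n ∈ Icc 1 N, c n * mu n := by
  rw [range_eq_Ico, sum_eq_sum_Ico_succ_bot (Nat.succ_pos N)]
  simp only [mu, ArithmeticFunction.map_zero, Int.cast_zero, mul_zero, zero_add]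
  rfl

lemma mu_aperiodic (q : ℕ) (hq : 0 < q) (δ : ℝ) (hδ : δ > 0) : ∃ M0 : ℝ, ∀ c : ℕ → ℝ,
    (∀ n, |c n| ≤ 1) → (∀ n, c (n + q) = c n) →
      ∀ M : ℕ, |∑ n ∈ range M, c n * mu n| ≤ δ * M + M0 := by
  have h1 : ∀ a ∈ range q, ∀ᶠ N : ℕ in atTop,
      |∑ k ∈ Icc 1 N with k ≡ a [MOD q], mu k| ≤ δ / q * N := by
    intro a _
    have h2 := (Pool.Agent.Lib.ANT.tendsto_sum_moebius_AP hq a).comp
      tendsto_natCast_atTop_atTop
    have h3 := Metric.tendsto_nhds.1 h2 (δ / q) (by positivity)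
    filter_upwards [h3, eventually_gt_atTop 0] with N hN hN0
    simp only [Function.comp_apply, Nat.floor_natCast, dist_zero_right, Real.norm_eq_abs,
      abs_div, Nat.abs_cast] at hN
    rw [div_lt_iff₀ (by exact_mod_cast hN0)] at hN
    exact hN.le
  obtain ⟨N0, hN0⟩ := eventually_atTop.1 ((eventually_all_finset _).2 h1)
  refine ⟨N0, fun c hc hp M => ?_⟩
  rcases le_or_gt M N0 with hM | hM
  · have := abs_sum_le_card (s := range M) fun n => abs_term_le abs_mu_le (hc n) n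
    have h4 : (M : ℝ) ≤ N0 := by exact_mod_cast hM
    have : 0 ≤ δ * M := by positivity
    rw [card_range] at *
    linarith
  obtain ⟨N, rfl⟩ : ∃ N, M = N + 1 := ⟨M - 1, by omega⟩
  rw [sum_range_succ_mu]
  have hper : Function.Periodic c q := hp
  have e : ∑ n ∈ Icc 1 N, c n * mu n =
      ∑ a ∈ range q, c a * ∑ k ∈ Icc 1 N with k ≡ a [MOD q], mu k := by
    rw [← sum_fiberwise_of_maps_to (s := Icc 1 N) (t := range q) (g := fun n => n % q)
      fun n _ => mem_range.2 (Nat.mod_lt _ hq)]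
    refine sum_congr rfl fun a ha => ?_
    rw [mul_sum]
    refine sum_congr ?_ fun n hn => ?_
    · ext n
      simp only [mem_filter, Nat.ModEq, Nat.mod_eq_of_lt (mem_range.1 ha)]
    · have := (mem_filter.1 hn).2
      rw [Nat.ModEq, Nat.mod_eq_of_lt (mem_range.1 ha)] at this
      rw [← this, hper.map_mod_nat]
  rw [e]
  refine (abs_sum_le_sum_abs _ _).trans ((sum_le_sum (g := fun _ => δ / q * N)
    fun a ha => ?_).trans ?_)
  · rw [abs_mul]
    exact (mul_le_of_le_one_left (abs_nonneg _) (hc a)).trans (hN0 N (by omega) a ha)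
  · rw [sum_const, card_range, nsmul_eq_mul]
    have : (q : ℝ) * (δ / q * N) = δ * N := by field_simp
    rw [this]
    push_cast
    have : (0 : ℝ) ≤ N0 := N0.cast_nonneg
    linarith only [hδ]

/-- The sums of `a` are `o(N)`. -/
def Sm (a : ℕ → ℝ) : Prop := ∀ ε > 0, ∀ᶠ N : ℕ in atTop, |∑ n ∈ range N, a n| ≤ ε * N

lemma Sm.of_approx {a : ℕ → ℝ} (h : ∀ ε > 0, ∃ c, Sm c ∧ ∀ n, |a n - c n| ≤ ε) : Sm a := by
  intro ε hε
  obtain ⟨c, hc, hac⟩ := h (ε / 2) (by positivity)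
  filter_upwards [hc (ε / 2) (by positivity)] with N hN
  have h1 : |∑ n ∈ range N, (a n - c n)| ≤ ε / 2 * N := by
    refine (abs_sum_le_sum_abs _ _).trans ((sum_le_sum fun n _ => hac n).trans ?_)
    simp [mul_comm]
  rw [sum_sub_distrib] at h1
  linarith only [hN, h1, abs_sub_abs_le_abs_sub (∑ n ∈ range N, a n) (∑ n ∈ range N, c n)]

lemma Sm.const_mul {a : ℕ → ℝ} (h : Sm a) (C : ℝ) : Sm fun n => C * a n := by
  intro ε hε
  filter_upwards [h (ε / (|C| + 1)) (by positivity)] with N hN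
  rw [← mul_sum, abs_mul]
  calc |C| * |∑ n ∈ range N, a n| ≤ (|C| + 1) * (ε / (|C| + 1) * N) := by gcongr; linarith only []
    _ = ε * N := by field_simp

lemma Sm.of_tendsto_sub {a c : ℕ → ℝ} (hc : Sm c) (h : Tendsto (fun n => a n - c n) atTop (𝓝 0)) :
    Sm a := by
  intro ε hε
  have h1 := Metric.tendsto_nhds.1 h.cesaro (ε / 2) (by positivity)
  filter_upwards [hc (ε / 2) (by positivity), h1, eventually_gt_atTop 0] with N hN h1 hN0
  rw [dist_zero_right, Real.norm_eq_abs, abs_mul, abs_inv, Nat.abs_cast,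
    inv_mul_lt_iff₀ (by exact_mod_cast hN0), sum_sub_distrib] at h1
  linarith only [hN, h1, abs_sub_abs_le_abs_sub (∑ n ∈ range N, a n) (∑ n ∈ range N, c n)]

lemma sm_periodic {c : ℕ → ℝ} {q : ℕ} (hq : 0 < q) (hc : ∀ n, |c n| ≤ 1)
    (hp : ∀ n, c (n + q) = c n) : Sm fun n => c n * mu n := by
  intro ε hε
  obtain ⟨M0, hM0⟩ := mu_aperiodic q hq (ε / 2) (by positivity)
  filter_upwards [(tendsto_natCast_atTop_atTop.const_mul_atTop
    (show 0 < ε / 2 by positivity)).eventually_ge_atTop M0] with N hN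
  linarith only [hN, hM0, hc, hp, hM0 c hc hp N]

lemma sm_of_windows {a : ℕ → ℝ} (ha : ∀ n, |a n| ≤ 1) {L : ℕ → ℕ}
    (h : ∀ ε > 0, ∀ᶠ n : ℕ in atTop, 1 ≤ L n ∧ (L n : ℝ) ≤ ε * n ∧
      |∑ j ∈ range (L n), a (n + j)| ≤ ε * L n) : Sm a := by
  intro ε hε
  obtain ⟨n1, hn1⟩ := eventually_atTop.1 (h (ε / 3) (by positivity))
  have key : ∀ d n : ℕ, n1 ≤ n → |∑ j ∈ range d, a (n + j)| ≤ ε / 3 * d + ε / 3 * (n + d) := by
    intro d
    induction d using Nat.strong_induction_on with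
    | _ d ih =>
    intro n hn
    obtain ⟨h1, h2, h3⟩ := hn1 n hn
    rcases le_or_gt (L n) d with hd | hd
    · obtain ⟨e, rfl⟩ := Nat.exists_eq_add_of_le hd
      rw [sum_range_add]
      have h4 := ih e (by omega) (n + L n) (by omega)
      simp only [add_assoc] at h4
      push_cast at h4 ⊢
      linarith only [h3, h4, abs_add_le (∑ j ∈ range (L n), a (n + j)) (∑ x ∈ range e, a (n + (L n + x)))]
    · have h4 := abs_sum_le_card (s := range d) fun j => ha (n + j)
      have h5 : (d : ℝ) ≤ L n := by exact_mod_cast hd.le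
      have : 0 ≤ ε / 3 * d := by positivity
      rw [card_range] at h4
      linarith only [h2, h4, h5, this]
  filter_upwards [(tendsto_natCast_atTop_atTop.const_mul_atTop
    (show 0 < ε / 3 by positivity)).eventually_ge_atTop (n1 : ℝ), eventually_ge_atTop n1]
    with N hN hN1
  obtain ⟨d, rfl⟩ := Nat.exists_eq_add_of_le hN1
  rw [sum_range_add]
  have h4 := abs_sum_le_card (s := range n1) ha
  have h5 := key d n1 le_rfl
  have : 0 ≤ ε / 3 * n1 := by positivity
  rw [card_range] at h4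
  push_cast at hN ⊢
  linarith only [h4, h5, this, hN, abs_add_le (∑ j ∈ range n1, a j) (∑ x ∈ range d, a (n1 + x))]

lemma exists_slow {P : ℕ → ℕ → Prop} (h : ∀ k, ∀ᶠ n in atTop, P k n) :
    ∃ κ : ℕ → ℕ, Monotone κ ∧ Tendsto κ atTop atTop ∧ ∀ᶠ n in atTop, P (κ n) n := by
  classical
  choose m hm using fun k => eventually_atTop.1 (h k)
  refine ⟨fun n => Nat.findGreatest (fun k => m k ≤ n) n, fun a b hab => ?_, ?_, ?_⟩
  · exact Nat.findGreatest_mono (fun k hk => le_trans hk hab) hab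
  · refine tendsto_atTop.2 fun k => ?_
    filter_upwards [eventually_ge_atTop k, eventually_ge_atTop (m k)] with n h1 h2
    exact Nat.le_findGreatest h1 h2
  · filter_upwards [eventually_ge_atTop (m 0)] with n hn
    exact hm _ _ (Nat.findGreatest_spec (P := fun k => m k ≤ n) (Nat.zero_le n) hn)

end Pool.Agent.Work.MP_2872f6_an
end

-- merged part: Pool.Agent.Work.MP_2872f6_an.Horseshoe
section
/-!
# An explicit horseshoe for a Henon type map of the two-torus
-/

open Filter Topology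

namespace Pool.Agent.Work.MP_2872f6_an

/-- The sign attached to a bit. -/
def sg (b : Bool) : ℝ := if b then 1 else -1

lemma abs_sg (b : Bool) : |sg b| = 1 := by cases b <;> simp [sg]

/-- Unstable coordinate. -/
noncomputable def uu (z : Sq) : ℝ := ∑' k : ℕ, (1 / 5 : ℝ) ^ k * sg (z k)

/-- Stable coordinate. -/
noncomputable def vv (z : Sq) : ℝ := ∑' k : ℕ, (1 / 5 : ℝ) ^ k * sg (z (-(k + 1)))

/-- The coding function. -/
noncomputable def xi (z : Sq) : ℝ := (uu z + vv z / 5) / 4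

lemma norm_term (k : ℕ) (b : Bool) : ‖(1 / 5 : ℝ) ^ k * sg b‖ ≤ (1 / 5 : ℝ) ^ k := by
  rw [Real.norm_eq_abs, abs_mul, abs_sg, mul_one, abs_of_nonneg (by positivity)]

lemma hasSum_fifth : HasSum (fun k : ℕ => (1 / 5 : ℝ) ^ k) (5 / 4) := by
  have := hasSum_geometric_of_lt_one (r := (1 / 5 : ℝ)) (by norm_num) (by norm_num)
  norm_num at this ⊢
  exact this

lemma summable_term (c : ℕ → Bool) : Summable fun k : ℕ => (1 / 5 : ℝ) ^ k * sg (c k) :=
  Summable.of_norm_bounded hasSum_fifth.summable fun k => norm_term k _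

lemma tsum_term (c : ℕ → Bool) : ∑' k : ℕ, (1 / 5 : ℝ) ^ k * sg (c k) =
    sg (c 0) + (∑' k : ℕ, (1 / 5 : ℝ) ^ k * sg (c (k + 1))) / 5 := by
  rw [(summable_term c).tsum_eq_zero_add, ← tsum_div_const]
  simp only [pow_zero, one_mul, add_right_inj]
  exact tsum_congr fun k => by ring

lemma abs_tsum_term (c : ℕ → Bool) : |∑' k : ℕ, (1 / 5 : ℝ) ^ k * sg (c k)| ≤ 5 / 4 :=
  tsum_of_norm_bounded hasSum_fifth fun k => norm_term k _

lemma uu_eq (z : Sq) : uu z = sg (z 0) + uu (shift 1 z) / 5 := by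
  rw [uu, tsum_term (fun k => z k)]
  simp [uu, shift]

lemma vv_eq (z : Sq) : vv (shift 1 z) = sg (z 0) + vv z / 5 := by
  rw [vv, tsum_term (fun k => shift 1 z (-(k + 1)))]
  have : ∀ k : ℕ, -(((k + 1 : ℕ) : ℤ) + 1) + 1 = -(k + 1) := fun k => by push_cast; ring
  simp only [vv, shift, this]
  simp

lemma shift_shift (a b : ℤ) (z : Sq) : shift a (shift b z) = shift (a + b) z := by
  ext i
  simp [shift, add_assoc]

lemma shift_zero (z : Sq) : shift 0 z = z := by
  ext i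
  simp [shift]

lemma abs_xi_sub (z : Sq) : |xi z - sg (z 0) / 4| ≤ 1 / 8 := by
  have h1 := abs_le.1 (abs_tsum_term fun k => shift 1 z k)
  have h2 := abs_le.1 (abs_tsum_term fun k => z (-(k + 1)))
  change _ ≤ uu (shift 1 z) ∧ uu (shift 1 z) ≤ _ at h1
  change _ ≤ vv z ∧ vv z ≤ _ at h2
  rw [xi, uu_eq, abs_le]
  constructor <;> linarith only [h1, h2, h1.1, h1.2, h2.1, h2.2]

lemma xi_rec (z : Sq) :
    xi (shift 1 z) + xi (shift (-1) z) = 26 / 5 * xi z - 6 / 5 * sg (z 0) := by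
  have h1 := uu_eq z
  have h2 := vv_eq z
  have h3 := uu_eq (shift (-1) z)
  have h4 := vv_eq (shift (-1) z)
  rw [shift_shift, add_neg_cancel, shift_zero] at h3 h4
  simp only [xi]
  linarith only [h1, h2, h3, h4]

lemma continuous_xi : Continuous xi := by
  have hs : Continuous sg := continuous_of_discreteTopology
  have h1 : Continuous uu :=
    continuous_tsum (fun k => by fun_prop) hasSum_fifth.summable fun k z => norm_term k _
  have h2 : Continuous vv :=
    continuous_tsum (fun k => by fun_prop) hasSum_fifth.summable fun k z => norm_term k _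
  unfold xi
  fun_prop

/-- The profile of the kick function on a fundamental domain. -/
noncomputable def bb (t : ℝ) : ℝ :=
  Real.smoothTransition (7 - 16 * t) * Real.smoothTransition (7 + 16 * t) *
    (26 / 5 * t - 6 / 5 * (2 * Real.smoothTransition (4 * t + 1 / 2) - 1))

/-- The periodic kick function. -/
noncomputable def gg (t : ℝ) : ℝ := bb (t - round t)

lemma contDiff_bb {n : ℕ∞} : ContDiff ℝ n bb := by
  have := Real.smoothTransition.contDiff (n := n)
  unfold bb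
  fun_prop

lemma bb_eq_zero {t : ℝ} (h : 7 / 16 ≤ |t|) : bb t = 0 := by
  rcases le_abs.1 h with h | h
  · rw [bb, Real.smoothTransition.zero_of_nonpos (by linarith only [h])]; simp
  · rw [bb, Real.smoothTransition.zero_of_nonpos (x := 7 + 16 * t) (by linarith only [h])]; simp

lemma gg_add_int (t : ℝ) (m : ℤ) : gg (t + m) = gg t := by
  simp [gg]

lemma contDiff_gg {n : ℕ∞} : ContDiff ℝ n gg := by
  refine contDiff_iff_contDiffAt.2 fun t0 => ?_
  have h0 := abs_le.1 (abs_sub_round t0)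
  have h1 : t0 - round t0 < 1 / 2 := by
    rw [round_eq]
    linarith only [Int.lt_floor_add_one (t0 + 1 / 2)]
  have h2 : ContDiffAt ℝ n (fun t => bb (t - round t0)) t0 :=
    (contDiff_bb.comp (contDiff_id.sub contDiff_const)).contDiffAt
  refine h2.congr_of_eventuallyEq ?_
  have : Set.Ioo (round t0 - 9 / 16 : ℝ) (round t0 + 1 / 2) ∈ 𝓝 t0 :=
    Ioo_mem_nhds (by linarith only [h0, h0.1]) (by linarith only [h1])
  filter_upwards [this] with t ht
  rw [gg]
  by_cases h : (round t0 : ℝ) - 1 / 2 ≤ t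
  · have : round t = round t0 := by
      rw [round_eq t, Int.floor_eq_iff]
      constructor <;> linarith only [h, ht, ht.2]
    rw [this]
  · have : round t = round t0 - 1 := by
      rw [round_eq t, Int.floor_eq_iff]
      push_cast
      constructor <;> linarith only [ht, h, ht.1]
    rw [this, bb_eq_zero, bb_eq_zero]
    · exact le_abs.2 (.inr (by linarith only [h]))
    · push_cast
      exact le_abs.2 (.inl (by linarith only [ht, ht.1]))

lemma gg_xi (z : Sq) : gg (xi z) = 26 / 5 * xi z - 6 / 5 * sg (z 0) := by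
  have h := abs_le.1 (abs_xi_sub z)
  have h' := abs_le.1 (abs_sg (z 0)).le
  have : round (xi z) = 0 := by
    rw [round_eq, Int.floor_eq_iff]
    push_cast
    constructor <;> linarith only [h, h', h.1, h.2, h'.1, h'.2]
  rw [gg, this, Int.cast_zero, sub_zero, bb,
    Real.smoothTransition.one_of_one_le (by linarith only [h, h', h.1, h.2, h'.1, h'.2]),
    Real.smoothTransition.one_of_one_le (by linarith only [h, h', h.1, h.2, h'.1, h'.2])]
  cases hz : z 0
  · simp only [hz, sg, Bool.false_eq_true, ↓reduceIte] at h ⊢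
    rw [Real.smoothTransition.zero_of_nonpos (by linarith only [h, h.2])]
    ring
  · simp only [hz, sg, ↓reduceIte] at h ⊢
    rw [Real.smoothTransition.one_of_one_le (by linarith only [h, h.1])]
    ring

lemma exists_lipschitz_gg : ∃ C : NNReal, LipschitzWith C gg := by
  have h1 : ContDiff ℝ 1 gg := contDiff_gg (n := 1)
  have hc : Continuous (deriv gg) := h1.continuous_deriv le_rfl
  have hp : Function.Periodic (deriv gg) 1 := by
    intro t
    rw [← deriv_comp_add_const]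
    congr 1
    ext s
    simpa using gg_add_int s 1
  obtain ⟨C, hC⟩ := isBounded_iff_forall_norm_le.1 (hp.isBounded_of_continuous one_ne_zero hc)
  refine ⟨C.toNNReal, lipschitzWith_of_nnnorm_deriv_le (h1.differentiable one_ne_zero) fun t => ?_⟩
  rw [← NNReal.coe_le_coe, coe_nnnorm]
  exact (hC _ ⟨t, rfl⟩).trans (Real.le_coe_toNNReal C)

/-- The Henon type map. -/
noncomputable def HH (p : ℝ × ℝ) : ℝ × ℝ := (p.2, -p.1 + gg p.2)

/-- The coding map of the horseshoe. -/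
noncomputable def code (z : Sq) : ℝ × ℝ := (xi (shift (-1) z), xi z)

lemma HH_code (z : Sq) : HH (code z) = code (shift 1 z) := by
  simp only [HH, code, shift_shift, neg_add_cancel, shift_zero, gg_xi, Prod.mk.injEq, true_and]
  linarith only [xi_rec z]

lemma continuous_code : Continuous code := by
  have := continuous_xi
  have := continuous_shift (-1)
  unfold code
  fun_prop

lemma exists_lipschitz_HH : ∃ Λ : ℝ, 1 ≤ Λ ∧ ∀ p q, dist (HH p) (HH q) ≤ Λ * dist p q := by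
  obtain ⟨C, hC⟩ := exists_lipschitz_gg
  refine ⟨1 + C, by simp, fun p q => ?_⟩
  have h1 : dist p.1 q.1 ≤ dist p q := le_max_left _ _
  have h2 : dist p.2 q.2 ≤ dist p q := le_max_right _ _
  have h3 := hC.dist_le_mul p.2 q.2
  have h4 : (C : ℝ) * dist p.2 q.2 ≤ C * dist p q := by gcongr
  have h5 : 0 ≤ (C : ℝ) * dist p q := by positivity
  rw [Prod.dist_eq, max_le_iff]
  simp only [HH]
  constructor
  · linarith
  · have := dist_add_add_le (-p.1) (gg p.2) (-q.1) (gg q.2)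
    rw [dist_neg_neg] at this
    linarith

end Pool.Agent.Work.MP_2872f6_an
end

-- merged part: Pool.Agent.Work.MP_2872f6_an.Penalty
section
/-!
# A `C^1` function with prescribed zero set and slowly decaying linear lower bounds
-/

open MeasureTheory Filter Topology
open scoped Convolution

namespace Pool.Agent.Work.MP_2872f6_an

variable {E : Type*} [NormedAddCommGroup E] [NormedSpace ℝ E] [FiniteDimensional ℝ E]

/-- Smoothing of a Lipschitz function at scale `r`. -/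
lemma exists_smoothing {r : ℝ} (hr : 0 < r) : ∃ S : (E → ℝ) → E → ℝ,
    ∀ g : E → ℝ, LipschitzWith 1 g → ContDiff ℝ 1 (S g) ∧ LipschitzWith 1 (S g) ∧
      (∀ v a b, (∀ w ∈ Metric.ball v r, a ≤ g w ∧ g w ≤ b) → a ≤ S g v ∧ S g v ≤ b) ∧
      ∀ k, (∀ v, g (v + k) = g v) → ∀ v, S g (v + k) = S g v := by
  borelize E
  let φ : ContDiffBump (0 : E) := ⟨r / 2, r, half_pos hr, half_lt_self hr⟩
  let μ : Measure E := Measure.addHaar
  have hi : ∀ g : E → ℝ, Continuous g → ∀ v, Integrable (fun t => φ.normed μ t * g (v - t)) μ :=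
    fun g hg v => (φ.continuous_normed.mul (by fun_prop)).integrable_of_hasCompactSupport
      φ.hasCompactSupport_normed.mul_right
  have hmono : ∀ f g : E → ℝ, Integrable (fun t => φ.normed μ t * f t) μ →
      Integrable (fun t => φ.normed μ t * g t) μ → (∀ t ∈ Metric.ball (0 : E) r, f t ≤ g t) →
      ∫ t, φ.normed μ t * f t ∂μ ≤ ∫ t, φ.normed μ t * g t ∂μ := by
    intro f g hf hg h
    refine integral_mono hf hg fun t => ?_
    by_cases ht : t ∈ Metric.ball (0 : E) r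
    · exact mul_le_mul_of_nonneg_left (h t ht) (φ.nonneg_normed t)
    · have : φ.normed μ t = 0 := by
        rw [← Function.notMem_support, φ.support_normed_eq]
        exact ht
      simp [this]
  have hconst : ∀ a : ℝ, ∫ t, φ.normed μ t * a ∂μ = a := by
    intro a
    rw [integral_mul_const, φ.integral_normed, one_mul]
  refine ⟨fun g v => ∫ t, φ.normed μ t * g (v - t) ∂μ, fun g hg => ⟨?_, ?_, ?_, ?_⟩⟩
  · exact φ.hasCompactSupport_normed.contDiff_convolution_left (ContinuousLinearMap.lsmul ℝ ℝ)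
      (φ.contDiff_normed (n := 1)) (hg.continuous.locallyIntegrable (μ := μ))
  · refine LipschitzWith.of_le_add fun v w => ?_
    rw [← hconst (dist v w), ← integral_add (hi g hg.continuous w)
      (φ.integrable_normed.mul_const _)]
    simp_rw [← mul_add]
    refine hmono _ _ (hi g hg.continuous v) ?_ fun t _ => ?_
    · simp_rw [mul_add]
      exact (hi g hg.continuous w).add (φ.integrable_normed.mul_const _)
    · have := hg.le_add_mul (v - t) (w - t)
      simpa using this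
  · intro v a b h
    have hm : ∀ t ∈ Metric.ball (0 : E) r, v - t ∈ Metric.ball v r := by
      intro t ht
      simpa [dist_eq_norm] using ht
    constructor
    · rw [← hconst a]
      exact hmono _ _ (φ.integrable_normed.mul_const _) (hi g hg.continuous v)
        fun t ht => (h _ (hm t ht)).1
    · rw [← hconst b]
      exact hmono _ _ (hi g hg.continuous v) (φ.integrable_normed.mul_const _)
        fun t ht => (h _ (hm t ht)).2
  · intro k hk v
    simp only
    congr 1 with t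
    rw [show v + k - t = v - t + k by abel, hk]

theorem exists_penalty {ρ : E → ℝ} (hρ : LipschitzWith 1 ρ) (h1 : ∀ v, ρ v ≤ 1)
    {ε : ℕ → ℝ} (hε : Antitone ε) (hε0 : ε 0 ≤ 1 / 2) (hεl : Tendsto ε atTop (𝓝 0)) :
    ∃ Ψ : E → ℝ, ContDiff ℝ 1 Ψ ∧ (∀ v, ‖fderiv ℝ Ψ v‖ ≤ 1 / 2) ∧ (∀ v, 0 ≤ Ψ v) ∧
      (∀ v, ρ v ≤ 0 → Ψ v = 0) ∧ (∀ j v, 4 * (1 / 2) ^ j ≤ ρ v → ε j * ρ v / 2 ≤ Ψ v) ∧
      ∀ k, (∀ v, ρ (v + k) = ρ v) → ∀ v, Ψ (v + k) = Ψ v := by
  have hr : ∀ j : ℕ, (0 : ℝ) < (1 / 2) ^ j := fun j => by positivity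
  choose S hS using fun j => exists_smoothing (E := E) (hr j)
  set g : ℕ → E → ℝ := fun j v => max (ρ v - (1 / 2) ^ j) 0 with hg
  have hgl : ∀ j, LipschitzWith 1 (g j) := by
    intro j
    refine LipschitzWith.max_const (LipschitzWith.of_le_add fun v w => ?_) 0
    have := hρ.le_add_mul v w
    simp only [NNReal.coe_one, one_mul] at this
    linarith only [this]
  set a : ℕ → ℝ := fun j => ε j - ε (j + 1) with ha
  have ha0 : ∀ j, 0 ≤ a j := fun j => sub_nonneg.2 (hε (Nat.le_succ j))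
  have hsum : ∀ j, HasSum (fun i => a (i + j)) (ε j) := by
    intro j
    rw [hasSum_iff_tendsto_nat_of_nonneg (fun i => ha0 _)]
    have : ∀ n, ∑ i ∈ Finset.range n, a (i + j) = ε j - ε (n + j) := by
      intro n
      induction n with
      | zero => simp
      | succ n ih => rw [Finset.sum_range_succ, ih, ha, show n + 1 + j = n + j + 1 by ring]; ring
    simp_rw [this]
    simpa using (hεl.comp (tendsto_add_atTop_nat j)).const_sub (ε j)
  have hsum0 : HasSum a (ε 0) := by simpa using hsum 0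
  set P : ℕ → E → ℝ := fun j => S j (g j) with hP
  have hP01 : ∀ j v, 0 ≤ P j v ∧ P j v ≤ 1 := fun j v =>
    (hS j _ (hgl j)).2.2.1 v 0 1 fun w _ =>
      ⟨le_max_right _ _, max_le (by linarith only [h1, hr, h1 w, hr j]) zero_le_one⟩
  have hb0 : ∀ j v, ‖a j * P j v‖ ≤ a j := by
    intro j v
    rw [Real.norm_of_nonneg (mul_nonneg (ha0 j) (hP01 j v).1)]
    exact mul_le_of_le_one_right (ha0 j) (hP01 j v).2
  have hd : ∀ j, ContDiff ℝ 1 (fun v => a j * P j v) := fun j =>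
    contDiff_const.mul (hS j _ (hgl j)).1
  have hb1 : ∀ j v, ‖fderiv ℝ (fun v => a j * P j v) v‖ ≤ a j := by
    clear * - E a P ha0 S g hS hgl
    intro j v
    have : LipschitzWith (Real.toNNReal (a j)) (fun v => a j * P j v) := by
      refine LipschitzWith.of_dist_le' fun v w => ?_
      rw [Real.dist_eq, ← mul_sub, abs_mul, abs_of_nonneg (ha0 j)]
      gcongr
      · exact ha0 j
      · simpa [Real.dist_eq] using (hS j _ (hgl j)).2.1.dist_le_mul v w
    simpa [ha0 j] using norm_fderiv_le_of_lipschitz ℝ this (x₀ := v)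
  have hs : ∀ v, Summable fun j => a j * P j v := fun v =>
    Summable.of_norm_bounded hsum0.summable fun j => hb0 j v
  refine ⟨fun v => ∑' j, a j * P j v, ?_, ?_, ?_, ?_, ?_, ?_⟩
  · refine contDiff_tsum (N := 1) (v := fun _ j => a j) hd (fun _ _ => hsum0.summable) ?_
    intro k j v hk
    have hk' : k ≤ 1 := by exact_mod_cast hk
    interval_cases k
    · rw [norm_iteratedFDeriv_zero]
      exact hb0 j v
    · rw [← norm_iteratedFDeriv_fderiv, norm_iteratedFDeriv_zero]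
      exact hb1 j v
  · intro v
    rw [fderiv_tsum_apply hsum0.summable (fun j => (hd j).differentiable one_ne_zero) hb1 (hs v)]
    exact (tsum_of_norm_bounded hsum0 fun j => hb1 j v).trans hε0
  · exact fun v => tsum_nonneg fun j => mul_nonneg (ha0 j) (hP01 j v).1
  · intro v hv
    have : ∀ j, P j v = 0 := by
      intro j
      have := (hS j _ (hgl j)).2.2.1 v 0 0 fun w hw => ⟨le_max_right _ _, max_le (by
        have h2 := hρ.le_add_mul w v
        rw [Metric.mem_ball] at hw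
        simp only [NNReal.coe_one, one_mul] at h2
        linarith only [hv, hw, h2]) le_rfl⟩
      exact le_antisymm this.2 this.1
    simp [this]
  · intro j v hv
    have h2 : ∀ i, a (i + j) * (ρ v / 2) ≤ a (i + j) * P (i + j) v := by
      clear * - a j ρ v P S g E hS hgl hρ hv h1 hr ha0
      intro i
      refine mul_le_mul_of_nonneg_left ?_ (ha0 _)
      refine ((hS (i + j) _ (hgl _)).2.2.1 v _ 1 fun w hw =>
        ⟨le_max_of_le_left ?_, max_le (by linarith only [h1, hr, h1 w, hr (i + j)]) zero_le_one⟩).1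
      have h2 := hρ.le_add_mul v w
      rw [Metric.mem_ball, dist_comm] at hw
      simp only [NNReal.coe_one, one_mul] at h2
      have h3 : (1 / 2 : ℝ) ^ (i + j) ≤ (1 / 2) ^ j :=
        pow_le_pow_of_le_one (by norm_num) (by norm_num) (by omega)
      linarith only [hv, hw, h2, h3]
    have h3 := hasSum_le h2 ((hsum j).mul_right _)
      ((summable_nat_add_iff (f := fun i => a i * P i v) j).2 (hs v)).hasSum
    beta_reduce
    rw [← (hs v).sum_add_tsum_nat_add j, mul_div_assoc]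
    have h4 : 0 ≤ ∑ i ∈ Finset.range j, a i * P i v :=
      Finset.sum_nonneg fun i _ => mul_nonneg (ha0 i) (hP01 i v).1
    linarith only [h3, h4]
  · intro k hk v
    refine tsum_congr fun j => ?_
    rw [hP]
    simp only
    rw [(hS j _ (hgl j)).2.2.2 k fun w => by simp only [hg, hk]]

end Pool.Agent.Work.MP_2872f6_an
end

-- merged part: Pool.Agent.Work.MP_2872f6_an.Torus
section
/-!
# Descending diffeomorphisms of `ℝ³` to the three-torus
-/

open scoped Manifold Real ContDiff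

namespace Pool.Agent.Work.MP_2872f6_an

/-- The covering map `x ↦ exp (2 π i x)`. -/
noncomputable def e1 (x : ℝ) : Circle := Circle.exp (2 * π * x)

/-- A section of `e1`. -/
noncomputable def l1 (w : Circle) : ℝ := Complex.arg w / (2 * π)

lemma e1_l1 (w : Circle) : e1 (l1 w) = w := by
  rw [e1, l1, mul_div_cancel₀ _ (by positivity), Circle.exp_arg]

lemma e1_add (x y : ℝ) : e1 (x + y) = e1 x * e1 y := by
  rw [e1, mul_add, Circle.exp_add, e1, e1]

lemma e1_eq_iff {x y : ℝ} : e1 x = e1 y ↔ ∃ m : ℤ, x = y + m := by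
  rw [e1, e1, Circle.exp_eq_exp]
  refine exists_congr fun m => ⟨fun h => ?_, fun h => by rw [h]; ring⟩
  have : 2 * π * x = 2 * π * (y + m) := by rw [h]; ring
  exact mul_left_cancel₀ (by positivity) this

lemma continuous_e1 : Continuous e1 := by
  unfold e1
  fun_prop

lemma contMDiff_e1 {n : WithTop ℕ∞} : ContMDiff 𝓘(ℝ, ℝ) (𝓡 1) n e1 :=
  contMDiff_circleExp.comp (contDiff_const.mul contDiff_id).contMDiff

lemma contMDiffAt_local_section {n : WithTop ℕ∞} (w0 : Circle) :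
    ContMDiffAt (𝓡 1) 𝓘(ℝ, ℝ) n (fun w : Circle => l1 w0 + l1 (w / w0)) w0 := by
  have : Fact (Module.finrank ℝ ℂ = 1 + 1) := ⟨Complex.finrank_real_complex⟩
  have h1 : ContMDiff (𝓡 1) 𝓘(ℝ, ℂ) n (fun w : Circle => (w : ℂ)) := contMDiff_coe_sphere
  have h2 : ContDiffAt ℝ n (fun z : ℂ => l1 w0 + (Complex.log (z / w0)).im / (2 * π)) w0 := by
    refine contDiffAt_const.add (ContDiffAt.div_const ?_ _)
    refine Complex.imCLM.contDiff.contDiffAt.comp (w0 : ℂ)
      (f := fun z : ℂ => Complex.log (z / w0)) ?_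
    have h3 : ContDiffAt ℝ n Complex.log ((w0 : ℂ) / w0) := by
      rw [div_self w0.coe_ne_zero]
      exact (Complex.contDiffAt_log Complex.one_mem_slitPlane).restrict_scalars ℝ
    exact h3.comp (w0 : ℂ) (f := fun z : ℂ => z / w0) (contDiffAt_id.div_const _)
  have h4 := h2.contMDiffAt.comp w0 (h1 w0)
  refine h4.congr_of_eventuallyEq (Filter.Eventually.of_forall fun w => ?_)
  simp [l1, Complex.log_im]

lemma e1_local_section (w0 w : Circle) : e1 (l1 w0 + l1 (w / w0)) = w := by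
  rw [e1_add, e1_l1, e1_l1, mul_div_cancel]

/-- The three-torus. -/
abbrev T3 := Circle × Circle × Circle

/-- Its universal cover. -/
abbrev R3 := ℝ × ℝ × ℝ

/-- The model with corners of the three-torus. -/
noncomputable abbrev I3 := (𝓡 1).prod ((𝓡 1).prod (𝓡 1))

/-- The covering map. -/
noncomputable def e3 (v : R3) : T3 := (e1 v.1, e1 v.2.1, e1 v.2.2)

/-- A section of the covering map. -/
noncomputable def l3 (w : T3) : R3 := (l1 w.1, l1 w.2.1, l1 w.2.2)

lemma e3_l3 (w : T3) : e3 (l3 w) = w := by simp [e3, l3, e1_l1]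

lemma continuous_e3 : Continuous e3 := by
  have := continuous_e1
  unfold e3
  fun_prop

/-- The integer lattice. -/
def lat (a b c : ℤ) : R3 := (a, b, c)

lemma e3_eq_iff {v w : R3} : e3 v = e3 w ↔ ∃ a b c : ℤ, v = w + lat a b c := by
  simp only [e3, e1_eq_iff, Prod.ext_iff, lat, Prod.fst_add, Prod.snd_add]
  exact ⟨fun ⟨⟨a, ha⟩, ⟨b, hb⟩, ⟨c, hc⟩⟩ => ⟨a, b, c, ha, hb, hc⟩,
    fun ⟨a, b, c, ha, hb, hc⟩ => ⟨⟨a, ha⟩, ⟨b, hb⟩, ⟨c, hc⟩⟩⟩

lemma contMDiff_e3 {n : WithTop ℕ∞} : ContMDiff 𝓘(ℝ, R3) I3 n e3 :=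
  (contMDiff_e1.comp contDiff_fst.contMDiff).prodMk
    ((contMDiff_e1.comp (contDiff_fst.comp contDiff_snd).contMDiff).prodMk
      (contMDiff_e1.comp (contDiff_snd.comp contDiff_snd).contMDiff))

lemma contMDiff_descend {n : WithTop ℕ∞} {F : R3 → R3} (hF : ContDiff ℝ n F)
    (h : ∀ v w, e3 v = e3 w → e3 (F v) = e3 (F w)) :
    ContMDiff I3 I3 n (fun w => e3 (F (l3 w))) := by
  intro w0
  let σ : T3 → R3 := fun w => (l1 w0.1 + l1 (w.1 / w0.1), l1 w0.2.1 + l1 (w.2.1 / w0.2.1),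
    l1 w0.2.2 + l1 (w.2.2 / w0.2.2))
  have hσ : ContMDiffAt I3 𝓘(ℝ, R3) n σ w0 := by
    refine ContMDiffAt.prodMk_space ?_ (ContMDiffAt.prodMk_space ?_ ?_)
    · exact (contMDiffAt_local_section w0.1).comp w0 contMDiffAt_fst
    · exact (contMDiffAt_local_section w0.2.1).comp w0 (f := fun w : T3 => w.2.1)
        (contMDiffAt_fst.comp w0 contMDiffAt_snd)
    · exact (contMDiffAt_local_section w0.2.2).comp w0 (f := fun w : T3 => w.2.2)
        (contMDiffAt_snd.comp w0 contMDiffAt_snd)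
  have h1 : (fun w => e3 (F (l3 w))) = fun w => e3 (F (σ w)) := by
    ext1 w
    apply h
    simp [σ, e3, e1_local_section, l3, e1_l1]
  rw [h1]
  exact (contMDiff_e3 _).comp w0 ((hF.contMDiff _).comp w0 hσ)

theorem exists_diffeomorph {n : WithTop ℕ∞} {F G : R3 → R3} (hF : ContDiff ℝ n F)
    (hG : ContDiff ℝ n G) (hFG : ∀ v, F (G v) = v) (hGF : ∀ v, G (F v) = v)
    (h : ∀ v w, e3 v = e3 w → e3 (F v) = e3 (F w))
    (h' : ∀ v w, e3 v = e3 w → e3 (G v) = e3 (G w)) :
    ∃ T : Diffeomorph I3 I3 T3 T3 n, ∀ v, T (e3 v) = e3 (F v) := by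
  refine ⟨⟨⟨fun w => e3 (F (l3 w)), fun w => e3 (G (l3 w)), fun w => ?_, fun w => ?_⟩,
    contMDiff_descend hF h, contMDiff_descend hG h'⟩, fun v => h _ _ (e3_l3 _)⟩
  · simp only
    rw [h' _ _ (e3_l3 _), hGF, e3_l3]
  · simp only
    rw [h _ _ (e3_l3 _), hFG, e3_l3]

/-- A small `C^1` perturbation of the identity has a `C^1` inverse. -/
theorem exists_inverse {E : Type*} [NormedAddCommGroup E] [NormedSpace ℝ E] [CompleteSpace E]
    {u : E → E} (hu : ContDiff ℝ 1 u) (hb : ∀ v, ‖fderiv ℝ u v‖ ≤ 1 / 2) :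
    ∃ G : E → E, ContDiff ℝ 1 G ∧ (∀ v, G v + u (G v) = v) ∧ ∀ v, G (v + u v) = v := by
  have hd := hu.differentiable one_ne_zero
  have hl : LipschitzWith (1 / 2) u :=
    lipschitzWith_of_nnnorm_fderiv_le hd fun v => by
      rw [← NNReal.coe_le_coe]
      simpa using hb v
  have ha : ApproximatesLinearOn (fun v => v + u v)
      ((ContinuousLinearEquiv.refl ℝ E : E ≃L[ℝ] E) : E →L[ℝ] E) Set.univ (1 / 2) := by
    intro x _ y _
    have := hl.dist_le_mul x y
    rw [dist_eq_norm, dist_eq_norm] at this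
    simpa [add_sub_add_comm] using this
  have hc : Subsingleton E ∨ (1 / 2 : NNReal) <
      ‖((ContinuousLinearEquiv.refl ℝ E : E ≃L[ℝ] E).symm : E →L[ℝ] E)‖₊⁻¹ := by
    rcases subsingleton_or_nontrivial E with h | h
    · exact .inl h
    · right
      simp only [ContinuousLinearEquiv.refl_symm, ContinuousLinearEquiv.coe_refl,
        ContinuousLinearMap.nnnorm_id, inv_one]
      norm_num
  let f := ha.toHomeomorph _ hc
  have hf : (f : E → E) = fun v => v + u v := rfl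
  have hlt : ∀ v, ‖-fderiv ℝ u v‖ < 1 := fun v => by rw [norm_neg]; linarith only [hb, hb v]
  refine ⟨f.symm, ?_, fun v => f.apply_symm_apply v, fun v => f.symm_apply_apply v⟩
  refine f.contDiff_symm
    (f₀' := fun v => ContinuousLinearEquiv.unitsEquiv ℝ E (Units.oneSub _ (hlt v))) ?_ ?_
  · intro v
    rw [hf]
    refine ((hasFDerivAt_id v).add (hd v).hasFDerivAt).congr_fderiv ?_
    ext w
    simp [ContinuousLinearEquiv.unitsEquiv_apply]
  · rw [hf]
    exact contDiff_id.add hu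

end Pool.Agent.Work.MP_2872f6_an
end

-- merged part: Pool.Agent.Work.MP_2872f6_an.Dyn
section
/-!
# The dynamics on the universal cover
-/

open Filter Topology Finset
open scoped Real

namespace Pool.Agent.Work.MP_2872f6_an

/-- The switch between the horseshoe map and a map of order four. -/
noncomputable def ss (t : ℝ) : ℝ := Real.smoothTransition (Real.cos (2 * π * t) + 1 / 2)

/-- The fibrewise Henon type map. -/
noncomputable def AA (v : R3) : R3 := (v.2.1, -v.1 + ss v.2.2 * gg v.2.1, v.2.2)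

/-- Its inverse. -/
noncomputable def AI (v : R3) : R3 := (ss v.2.2 * gg v.1 - v.2.1, v.1, v.2.2)

lemma contDiff_ss {n : ℕ∞} : ContDiff ℝ n ss := by
  have := Real.smoothTransition.contDiff (n := n)
  unfold ss
  fun_prop

lemma ss_add_int (t : ℝ) (c : ℤ) : ss (t + c) = ss t := by
  rw [ss, ss, mul_add, show 2 * π * (c : ℝ) = c * (2 * π) by ring, Real.cos_add_int_mul_two_pi]

lemma contDiff_AA {n : ℕ∞} : ContDiff ℝ n AA := by
  have := contDiff_ss (n := n)
  have := contDiff_gg (n := n)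
  unfold AA
  fun_prop

lemma contDiff_AI {n : ℕ∞} : ContDiff ℝ n AI := by
  have := contDiff_ss (n := n)
  have := contDiff_gg (n := n)
  unfold AI
  fun_prop

lemma AA_AI (v : R3) : AA (AI v) = v := by simp [AA, AI]

lemma AI_AA (v : R3) : AI (AA v) = v := by simp [AA, AI]

lemma AA_lat (v : R3) (a b c : ℤ) : AA (v + lat a b c) = AA v + lat b (-a) c := by
  simp only [AA, lat, Prod.fst_add, Prod.snd_add, ss_add_int, gg_add_int, Prod.mk_add_mk,
    Int.cast_neg, Prod.mk.injEq, and_true, true_and]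
  ring

lemma AI_lat (v : R3) (a b c : ℤ) : AI (v + lat a b c) = AI v + lat (-b) a c := by
  simp only [AI, lat, Prod.fst_add, Prod.snd_add, ss_add_int, gg_add_int, Prod.mk_add_mk,
    Int.cast_neg, Prod.mk.injEq, and_true]
  ring

/-- The point of the cover coded by a sequence. -/
noncomputable def emb (z : Sq) : R3 := ((code z).1, (code z).2, 0)

/-- The zero set of the penalty function. -/
def SS (Z : Set Sq) : Set R3 :=
  {v | (∃ z ∈ Z, ∃ a b c : ℤ, v = emb z + lat a b c) ∨ ∃ c : ℤ, v.2.2 = c + 1 / 2}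

lemma lat_add (a b c a' b' c' : ℤ) : lat a b c + lat a' b' c' = lat (a + a') (b + b') (c + c') := by
  simp [lat]

lemma SS_lat {Z : Set Sq} {v : R3} (hv : v ∈ SS Z) (a b c : ℤ) : v + lat a b c ∈ SS Z := by
  rcases hv with ⟨z, hz, a', b', c', rfl⟩ | ⟨c', h⟩
  · exact .inl ⟨z, hz, _, _, _, by rw [add_assoc, lat_add]⟩
  · refine .inr ⟨c' + c, ?_⟩
    simp only [lat, Prod.snd_add, h]
    push_cast
    ring

lemma infDist_SS_lat (Z : Set Sq) (a b c : ℤ) (v : R3) :
    Metric.infDist (v + lat a b c) (SS Z) = Metric.infDist v (SS Z) := by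
  have h : (fun w => w + lat a b c) '' SS Z = SS Z := by
    refine Set.Subset.antisymm ?_ fun w hw => ⟨_, SS_lat hw (-a) (-b) (-c), ?_⟩
    · rintro _ ⟨w, hw, rfl⟩
      exact SS_lat hw a b c
    · simp [add_assoc, lat]
  conv_lhs => rw [← h]
  exact Metric.infDist_image (isometry_add_right _)

lemma infDist_SS_le (Z : Set Sq) (v : R3) (c : ℤ) :
    Metric.infDist v (SS Z) ≤ |v.2.2 - (c + 1 / 2)| := by
  have : (v.1, v.2.1, (c : ℝ) + 1 / 2) ∈ SS Z := .inr ⟨c, rfl⟩
  refine (Metric.infDist_le_dist_of_mem this).trans (le_of_eq ?_)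
  simp [Prod.dist_eq, Real.dist_eq]

lemma SS_nonempty (Z : Set Sq) : (SS Z).Nonempty := ⟨(0, 0, 1 / 2), .inr ⟨0, by simp⟩⟩

lemma sin_le_infDist (Z : Set Sq) (v : R3) :
    |Real.sin (2 * π * v.2.2)| ≤ 2 * π * Metric.infDist v (SS Z) := by
  rw [← div_le_iff₀' (by positivity), Metric.le_infDist (SS_nonempty Z)]
  intro w hw
  have h0 : Real.sin (2 * π * w.2.2) = 0 := by
    rcases hw with ⟨z, -, a, b, c, rfl⟩ | ⟨c, h⟩
    · simp only [emb, lat, Prod.snd_add, zero_add]
      rw [show 2 * π * (c : ℝ) = ((2 * c : ℤ) : ℝ) * π by push_cast; ring, Real.sin_int_mul_pi]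
    · rw [h, show 2 * π * ((c : ℝ) + 1 / 2) = ((2 * c + 1 : ℤ) : ℝ) * π by push_cast; ring,
        Real.sin_int_mul_pi]
  have h1 := Real.abs_sin_sub_sin_le (2 * π * v.2.2) (2 * π * w.2.2)
  rw [h0, sub_zero, ← mul_sub, abs_mul, abs_of_pos (by positivity : 0 < 2 * π)] at h1
  rw [div_le_iff₀' (by positivity)]
  refine h1.trans ?_
  gcongr
  exact (le_max_right _ _).trans (le_max_right _ _)

/-- The two first coordinates. -/
def pp (v : R3) : ℝ × ℝ := (v.1, v.2.1)

lemma dist_le_of_pp {v w : R3} {r : ℝ} (h1 : dist (pp v) (pp w) ≤ r) (h2 : |v.2.2 - w.2.2| ≤ r) :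
    dist v w ≤ r := by
  simp only [pp, Prod.dist_eq, max_le_iff] at h1 ⊢
  exact ⟨h1.1, h1.2, h2⟩

lemma dist_pp_le (v w : R3) : dist (pp v) (pp w) ≤ dist v w := by
  simp only [pp, Prod.dist_eq]
  gcongr
  exact le_max_left _ _

lemma HH_iter_code (z : Sq) (a b : ℤ) (j : ℕ) : ∃ a' b' : ℤ,
    HH^[j] (code z + ((a : ℝ), (b : ℝ))) = code (shift j z) + ((a' : ℝ), (b' : ℝ)) := by
  induction j with
  | zero => exact ⟨a, b, by simp [shift_zero]⟩
  | succ j ih =>
    obtain ⟨a', b', h⟩ := ih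
    refine ⟨b', -a', ?_⟩
    rw [Function.iterate_succ_apply', h, show ((j + 1 : ℕ) : ℤ) = 1 + j by push_cast; ring,
      ← shift_shift, ← HH_code]
    simp only [HH, Prod.snd_add, Prod.fst_add, gg_add_int, Prod.mk_add_mk, Int.cast_neg,
      Prod.mk.injEq, true_and]
    ring

section orbit

variable {Z : Set Sq} {Ψ : R3 → ℝ} {v : ℕ → R3} {f : R3 → ℝ}

/-- Orbits converging to a half integer level. -/
lemma sm_half (hv : ∀ n, v (n + 1) = AA (v n + (0, 0, Ψ (v n)))) {c : ℤ}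
    (ht : Tendsto (fun n => (v n).2.2) atTop (𝓝 (c + 1 / 2))) (hf : UniformContinuous f)
    (hf1 : ∀ w, |f w| ≤ 1) : Sm fun n => f (v n) * mu n := by
  have h1 : Tendsto (fun n => Real.cos (2 * π * (v n).2.2) + 1 / 2) atTop
      (𝓝 (Real.cos (2 * π * (c + 1 / 2)) + 1 / 2)) :=
    ((Real.continuous_cos.tendsto _).comp (ht.const_mul _)).add_const _
  have h2 : Real.cos (2 * π * (c + 1 / 2)) + 1 / 2 < 0 := by
    rw [show 2 * π * ((c : ℝ) + 1 / 2) = c * (2 * π) + π by ring, Real.cos_int_mul_two_pi_add_pi]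
    norm_num
  obtain ⟨n0, hn0⟩ := eventually_atTop.1 (h1.eventually (gt_mem_nhds h2))
  have h3 : ∀ n ≥ n0, (v (n + 1)).1 = (v n).2.1 ∧ (v (n + 1)).2.1 = -(v n).1 := by
    intro n hn
    have h4 : ss (v (n + 1)).2.2 = 0 :=
      Real.smoothTransition.zero_of_nonpos (hn0 (n + 1) (by omega)).le
    rw [hv] at h4 ⊢
    simp only [AA] at h4 ⊢
    rw [h4]
    simp
  have h4 : ∀ n ≥ n0, pp (v (n + 4)) = pp (v n) := by
    clear * - n0 v h3
    intro n hn
    obtain ⟨a1, b1⟩ := h3 n hn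
    obtain ⟨a2, b2⟩ := h3 (n + 1) (by omega)
    obtain ⟨a3, b3⟩ := h3 (n + 1 + 1) (by omega)
    obtain ⟨a4, b4⟩ := h3 (n + 1 + 1 + 1) (by omega)
    simp only [pp, Prod.mk.injEq]
    rw [show n + 4 = n + 1 + 1 + 1 + 1 by ring]
    constructor <;> linarith only [b1, a2, b3, a4, a1, b2, a3, b4]
  have h5 : ∀ k, ∀ n ≥ n0, pp (v (n + 4 * k)) = pp (v n) := by
    intro k n hn
    induction k with
    | zero => rfl
    | succ k ih => rw [mul_add, ← add_assoc, mul_one, h4 _ (by omega), ih]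
  set w : ℕ → R3 := fun n => ((pp (v (n + 4 * n0))).1, (pp (v (n + 4 * n0))).2, c + 1 / 2) with hw
  refine (sm_periodic (c := fun n => f (w n)) (q := 4) (by norm_num) (fun n => hf1 _)
    fun n => ?_).of_tendsto_sub ?_
  · simp only [hw]
    rw [show n + 4 + 4 * n0 = n + 4 * n0 + 4 by ring, h4 _ (by omega)]
  · rw [Metric.tendsto_nhds]
    intro ε hε
    obtain ⟨δ, hδ, h6⟩ := Metric.uniformContinuous_iff.1 hf ε hε
    filter_upwards [Metric.tendsto_nhds.1 ht (δ / 2) (by positivity), eventually_ge_atTop n0]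
      with n h7 h8
    have h9 : dist (v n) (w n) ≤ δ / 2 := by
      refine dist_le_of_pp ?_ h7.le
      rw [show pp (w n) = pp (v (n + 4 * n0)) from rfl, h5 _ _ h8, dist_self]
      positivity
    have := h6 (h9.trans_lt (half_lt_self hδ))
    rw [dist_zero_right, ← sub_mul, Real.norm_eq_abs, abs_mul]
    exact (mul_le_of_le_one_right (abs_nonneg _) (abs_mu_le n)).trans_lt this

/-- Fast convergence to an integer level. -/
lemma rho_le {τ ρ : ℕ → ℝ} {n0 : ℕ} {K : ℕ → ℝ} (hK : ∀ j, 1 ≤ K j) (hτ0 : ∀ n, 0 ≤ τ n)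
    (hτ1 : τ n0 ≤ 1) (hanti : Antitone τ) (hτρ : ∀ n ≥ n0, τ n ≤ ρ n)
    (h : ∀ j n, 4 * (1 / 2) ^ j ≤ ρ n → 1 / (2 * K j) * ρ n / 2 ≤ τ n - τ (n + 1))
    {n : ℕ} (hn : 2 * n0 ≤ n) : ρ n ≤ 16 * K n * Real.exp (-(n / (8 * K n))) := by
  have hK0 : 0 < K n := by linarith only [hK, hK n]
  have hE := Real.exp_pos (-(n / (8 * K n)))
  have h1 : (1 / 2 : ℝ) ^ n ≤ Real.exp (-(n / (8 * K n))) := by
    clear * - n K hK0 hK
    calc (1 / 2 : ℝ) ^ n ≤ Real.exp (-(1 / (8 * K n))) ^ n := by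
          gcongr
          have : 1 / (8 * K n) ≤ 1 / 2 := by
            rw [div_le_div_iff₀ (by positivity) (by positivity)]
            linarith [hK n]
          linarith only [this, Real.add_one_le_exp (-(1 / (8 * K n)))]
      _ = _ := by rw [← Real.exp_nat_mul]; congr 1; ring
  have h2 : τ n ≤ 4 * Real.exp (-(n / (8 * K n))) := by
    by_cases h3 : τ n < 4 * (1 / 2) ^ n
    · linarith only [h1, h3]
    push Not at h3
    have h4 : ∀ i, n0 + i ≤ n → τ (n0 + i) ≤ Real.exp (-(i / (4 * K n))) := by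
      intro i
      induction i with
      | zero => intro _; simpa using hτ1
      | succ i ih =>
        intro hi
        have h5 := h n (n0 + i) (h3.trans ((hanti (by omega)).trans (hτρ _ (by omega))))
        have h6 : 1 / (2 * K n) * τ (n0 + i) / 2 ≤ 1 / (2 * K n) * ρ (n0 + i) / 2 := by
          gcongr
          exact hτρ _ (by omega)
        have h7 : τ (n0 + i + 1) ≤ τ (n0 + i) * (-(1 / (4 * K n)) + 1) := by
          clear * - K n τ n0 i hK0 ρ h5 h6
          have : 1 / (2 * K n) * τ (n0 + i) / 2 = τ (n0 + i) * (1 / (4 * K n)) := by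
            field_simp
            ring
          linarith only [h5, h6, this]
        calc τ (n0 + (i + 1)) ≤ τ (n0 + i) * Real.exp (-(1 / (4 * K n))) :=
              h7.trans (mul_le_mul_of_nonneg_left (Real.add_one_le_exp _) (hτ0 _))
          _ ≤ Real.exp (-(i / (4 * K n))) * Real.exp (-(1 / (4 * K n))) := by
              gcongr
              exact ih (by omega)
          _ = _ := by rw [← Real.exp_add]; congr 1; push_cast; ring
    obtain ⟨i, rfl⟩ : ∃ i, n = n0 + i := ⟨n - n0, by omega⟩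
    refine (h4 i le_rfl).trans (le_trans ?_ (le_mul_of_one_le_left hE.le (by norm_num)))
    rw [Real.exp_le_exp, neg_le_neg_iff, div_le_div_iff₀ (by positivity) (by positivity)]
    have : (n0 : ℝ) ≤ i := by exact_mod_cast (by omega : n0 ≤ i)
    push_cast
    clear * - n0 i K hK0 this
    linarith only [hK0, this, mul_nonneg_of_nonpos_of_nonpos (le_of_lt (Mathlib.Tactic.Linarith.sub_neg_of_lt hK0)) (Mathlib.Tactic.Linarith.sub_nonpos_of_le this)]
  by_cases h3 : ρ n < 4 * (1 / 2) ^ n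
  · clear * - ρ n K h1 h3 hK0 hE hK
    linarith only [h1, h3, hK0, hE, hK, hK n, mul_pos_of_neg_of_neg (Mathlib.Tactic.Linarith.sub_neg_of_lt hK0) (Mathlib.Tactic.Linarith.sub_neg_of_lt hE), mul_nonneg_of_nonpos_of_nonpos (le_of_lt (Mathlib.Tactic.Linarith.sub_neg_of_lt hE)) (Mathlib.Tactic.Linarith.sub_nonpos_of_le (hK n))]
  · have h4 := h n n (not_lt.1 h3)
    have h5 : 1 / (2 * K n) * ρ n / 2 = ρ n / (4 * K n) := by field_simp; ring
    rw [h5, div_le_iff₀ (by positivity)] at h4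
    clear * - ρ n K τ h4 hK0 h2 hτ0
    linarith only [h4, hK0, h2, hτ0, hτ0 (n + 1), mul_nonneg_of_nonpos_of_nonpos (le_of_lt (Mathlib.Tactic.Linarith.sub_neg_of_lt hK0)) (Mathlib.Tactic.Linarith.sub_nonpos_of_le h2), mul_nonneg_of_nonpos_of_nonpos (le_of_lt (Mathlib.Tactic.Linarith.sub_neg_of_lt hK0)) (Mathlib.Tactic.Linarith.sub_nonpos_of_le (hτ0 (n + (1 : ℕ))))]

end orbit

end Pool.Agent.Work.MP_2872f6_an
end

-- merged part: Pool.Agent.Work.MP_2872f6_an.Orbit
section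
/-!
# Every orbit is uncorrelated to the Moebius function
-/

open Filter Topology Finset
open scoped Real

namespace Pool.Agent.Work.MP_2872f6_an

lemma numeric_window {Λ K x η : ℝ} {n L : ℕ} (hΛ : 1 ≤ Λ) (hK : 1 ≤ K) (hn : K ^ 3 ≤ n)
    (hL : (L : ℝ) ≤ n / K ^ 2 + 1) (hx : x ≤ 16 * K * Real.exp (-(n / (8 * K))))
    (h1 : 16 * Real.log Λ ≤ K) (h2 : 256 * Λ < η * K) : Λ ^ L * x < η := by
  have hK0 : 0 < K := by linarith only [hK]
  have hΛ0 : 0 < Λ := by linarith only [hΛ]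
  have ha : 0 ≤ Real.log Λ := Real.log_nonneg hΛ
  have hn0 : (0 : ℝ) < n := lt_of_lt_of_le (by positivity) hn
  have h3 : Λ ^ L ≤ Λ * Real.exp (n / (16 * K)) := by
    clear * - Λ L hΛ0 n K h1 hn0 hK hL ha
    have e : Λ ^ L = Real.exp (L * Real.log Λ) := by
      rw [Real.exp_nat_mul, Real.exp_log hΛ0]
    rw [e]
    conv_rhs => rw [← Real.exp_log hΛ0, ← Real.exp_add]
    rw [Real.exp_le_exp]
    have h4 : n / K ^ 2 * Real.log Λ ≤ n / (16 * K) := by
      calc n / K ^ 2 * Real.log Λ ≤ n / K ^ 2 * (K / 16) := by gcongr; linarith only [h1]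
        _ = n / (16 * K) := by field_simp
    linarith only [h4, hL, ha, mul_nonneg_of_nonpos_of_nonpos (Mathlib.Tactic.Linarith.sub_nonpos_of_le hL) (Mathlib.Tactic.Linarith.sub_nonpos_of_le ha)]
  have h5 : Real.exp (n / (16 * K)) * Real.exp (-(n / (8 * K))) = (Real.exp (n / (16 * K)))⁻¹ := by
    rw [← Real.exp_add, ← Real.exp_neg]
    congr 1
    field_simp
    norm_num
  have h6 : (Real.exp (n / (16 * K)))⁻¹ ≤ (K ^ 2 / 16)⁻¹ := by
    clear * - n K hK hn
    gcongr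
    have : K ^ 2 / 16 ≤ n / (16 * K) := by
      rw [div_le_div_iff₀ (by positivity) (by positivity)]
      linarith only [hn]
    linarith only [this, Real.add_one_le_exp (n / (16 * K))]
  calc Λ ^ L * x ≤ Λ ^ L * (16 * K * Real.exp (-(n / (8 * K)))) := by gcongr
    _ ≤ Λ * Real.exp (n / (16 * K)) * (16 * K * Real.exp (-(n / (8 * K)))) := by gcongr
    _ = 16 * K * Λ * (Real.exp (n / (16 * K)))⁻¹ := by rw [← h5]; ring
    _ ≤ 16 * K * Λ * (K ^ 2 / 16)⁻¹ := by gcongr
    _ = 256 * Λ / K := by field_simp; norm_num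
    _ < η := by rwa [div_lt_iff₀ hK0]

lemma half_le_abs_int_sub (m c : ℤ) : (1 / 2 : ℝ) ≤ |(m : ℝ) - (c + 1 / 2)| := by
  rcases le_or_gt m c with h | h
  · have : (m : ℝ) ≤ c := by exact_mod_cast h
    exact le_abs.2 (.inr (by linarith only [this]))
  · have : (c : ℝ) + 1 ≤ m := by exact_mod_cast h
    exact le_abs.2 (.inl (by linarith only [this]))

variable {Z : Set Sq} {Ψ : R3 → ℝ} {v : ℕ → R3} {f : R3 → ℝ}

lemma snd_succ (hv : ∀ n, v (n + 1) = AA (v n + (0, 0, Ψ (v n)))) (n : ℕ) :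
    (v (n + 1)).2.2 = (v n).2.2 + Ψ (v n) := by
  rw [hv]
  simp [AA]

/-- Orbits converging to an integer level. -/
lemma sm_int (hZ : ∀ z ∈ Z, ∀ k, shift k z ∈ Z) {κ : ℕ → ℕ} (hκ : Tendsto κ atTop atTop)
    (hP : ∀ᶠ n : ℕ in atTop, (κ n + 1 : ℝ) ^ 3 ≤ n ∧ ∀ N ≥ n, ∀ z ∈ Z,
      |∑ i ∈ range N, f (emb (shift i z)) * mu i| ≤ 1 / (κ n + 1) ^ 3 * N)
    (hΨ0 : ∀ w, 0 ≤ Ψ w)
    (hΨ : ∀ j w, 4 * (1 / 2) ^ j ≤ Metric.infDist w (SS Z) →
      1 / (2 * (κ j + 1)) * Metric.infDist w (SS Z) / 2 ≤ Ψ w)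
    (hv : ∀ n, v (n + 1) = AA (v n + (0, 0, Ψ (v n)))) {m : ℤ}
    (ht : Tendsto (fun n => (v n).2.2) atTop (𝓝 m)) (hf : UniformContinuous f)
    (hf1 : ∀ w, |f w| ≤ 1) (hfp : ∀ w a b c, f (w + lat a b c) = f w) :
    Sm fun n => f (v n) * mu n := by
  obtain ⟨Λ, hΛ, hH⟩ := exists_lipschitz_HH
  have hmono : Monotone fun n => (v n).2.2 :=
    monotone_nat_of_le_succ fun n => by rw [snd_succ hv]; linarith [hΨ0 (v n)]
  set τ : ℕ → ℝ := fun n => m - (v n).2.2 with hτ
  have hτ0 : ∀ n, 0 ≤ τ n := fun n => sub_nonneg.2 (hmono.ge_of_tendsto ht n)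
  have hanti : Antitone τ := fun a b h => sub_le_sub_left (hmono h) _
  have hτl : Tendsto τ atTop (𝓝 0) := by simpa using ht.const_sub (m : ℝ)
  have h1 : Tendsto (fun n => Real.cos (2 * π * (v n).2.2) + 1 / 2) atTop
      (𝓝 (Real.cos (2 * π * m) + 1 / 2)) :=
    ((Real.continuous_cos.tendsto _).comp (ht.const_mul _)).add_const _
  have h2 : 1 < Real.cos (2 * π * m) + 1 / 2 := by
    rw [mul_comm, Real.cos_int_mul_two_pi]
    norm_num
  obtain ⟨n0, hn0⟩ := eventually_atTop.1 ((h1.eventually (lt_mem_nhds h2)).and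
    (hτl.eventually (gt_mem_nhds (show (0 : ℝ) < 1 / 4 by norm_num))))
  have h3 : ∀ n ≥ n0, pp (v (n + 1)) = HH (pp (v n)) := by
    intro n hn
    have h4 : ss (v (n + 1)).2.2 = 1 :=
      Real.smoothTransition.one_of_one_le (hn0 (n + 1) (by omega)).1.le
    rw [hv] at h4 ⊢
    simp only [AA] at h4
    simp only [pp, AA, HH, h4]
    simp
  have h4 : ∀ n ≥ n0, ∀ q j, dist (pp (v (n + j))) (HH^[j] q) ≤ Λ ^ j * dist (pp (v n)) q := by
    intro n hn q j
    induction j with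
    | zero => simp
    | succ j ih =>
      rw [← add_assoc, h3 _ (by omega), Function.iterate_succ_apply', pow_succ', mul_assoc]
      exact (hH _ _).trans (by gcongr)
  have h5 : ∀ n ≥ n0, ∀ c : ℤ, 1 / 4 ≤ |(v n).2.2 - (c + 1 / 2)| := by
    clear * - n0 m τ v hn0 hτ0
    intro n hn c
    have a1 := half_le_abs_int_sub m c
    have a2 := (hn0 n hn).2
    have a3 := abs_sub_le (m : ℝ) (v n).2.2 (c + 1 / 2)
    rw [abs_of_nonneg (hτ0 n)] at a3
    linarith only [a1, a2, a3]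
  have hd3 : ∀ w w' : R3, |w.2.2 - w'.2.2| ≤ dist w w' := fun w w' =>
    (le_max_right _ _).trans (le_max_right _ _)
  set ρ : ℕ → ℝ := fun n => Metric.infDist (v n) (SS Z) with hρ
  have hτρ : ∀ n ≥ n0, τ n ≤ ρ n := by
    clear * - n0 τ ρ v Z hρ hn0 m hτ h5 hd3
    intro n hn
    rw [hρ, Metric.le_infDist (SS_nonempty Z)]
    intro w hw
    refine le_trans ?_ (hd3 _ _)
    have a2 := (hn0 n hn).2
    rcases hw with ⟨z, -, a, b, c, rfl⟩ | ⟨c, h⟩
    · simp only [emb, lat, Prod.snd_add, zero_add]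
      rcases le_or_gt m c with h | h
      · have : (m : ℝ) ≤ c := by exact_mod_cast h
        exact le_abs.2 (.inr (by simp only [hτ]; linarith only [this]))
      · have : (c : ℝ) + 1 ≤ m := by exact_mod_cast h
        exact le_abs.2 (.inl (by simp only [hτ] at a2 ⊢; linarith only [this, a2]))
    · rw [h]
      linarith only [a2, h5, hn, h5 n hn c]
  have hρle : ∀ n, 2 * n0 ≤ n → ρ n ≤ 16 * (κ n + 1) * Real.exp (-(n / (8 * (κ n + 1)))) :=
    fun n hn => rho_le (K := fun j => κ j + 1) (fun j => by simp) hτ0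
      (by linarith only [hn0, (hn0 n0 le_rfl).2]) hanti hτρ (fun j n h => by
        have := hΨ j _ h
        simp only [hτ, snd_succ hv]
        linarith only [this]) hn
  have hKl : Tendsto (fun n => (κ n + 1 : ℝ)) atTop atTop :=
    tendsto_atTop_add_const_right _ _ (tendsto_natCast_atTop_atTop.comp hκ)
  refine sm_of_windows (fun n => abs_term_le abs_mu_le (hf1 _) n)
    (L := fun n => n / (κ n + 1) ^ 2 + 1) fun ε hε => ?_
  obtain ⟨δ, hδ, hδf⟩ := Metric.uniformContinuous_iff.1 hf (ε / 2) (by positivity)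
  set η := min (δ / 2) (1 / 4) with hη
  have hη0 : 0 < η := by positivity
  filter_upwards [hP, eventually_ge_atTop (2 * n0), hτl.eventually (gt_mem_nhds hη0),
    hKl.eventually_ge_atTop (16 * Real.log Λ), hKl.eventually_gt_atTop (256 * Λ / η),
    hKl.eventually_ge_atTop (6 / ε)] with n ⟨hP1, hP2⟩ hn hτn hK1 hK2 hK3
  set K : ℝ := κ n + 1 with hK
  set L : ℕ := n / (κ n + 1) ^ 2 + 1 with hL
  have hK0 : 1 ≤ K := by simp [hK]
  have hL1 : (L : ℝ) ≤ n / K ^ 2 + 1 := by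
    clear * - n κ L K hL m
    have := Nat.cast_div_le (α := ℝ) (m := n) (n := (κ n + 1) ^ 2)
    rw [hL]
    push_cast at this ⊢
    linarith only [this]
  have hL2 : n / K ^ 2 ≤ L := by
    have := Nat.lt_mul_div_succ n (b := (κ n + 1) ^ 2) (by positivity)
    rw [div_le_iff₀ (by positivity), mul_comm, hK, hL]
    exact_mod_cast this.le
  have hK4 : 6 ≤ ε * K := by rwa [div_le_iff₀' hε] at hK3
  have hKK : K ≤ K ^ 2 := by linarith only [mul_nonneg_of_nonpos_of_nonpos (Mathlib.Tactic.Linarith.sub_nonpos_of_le (Mathlib.Tactic.Linarith.natCast_nonneg ℝ (κ n))) (Mathlib.Tactic.Linarith.sub_nonpos_of_le (Mathlib.Tactic.Linarith.natCast_nonneg ℝ (κ n)))]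
  have hKKK : K ^ 2 ≤ K ^ 3 := by linarith only [mul_nonneg_of_nonpos_of_nonpos (Mathlib.Tactic.Linarith.sub_nonpos_of_le (sq_nonneg K)) (Mathlib.Tactic.Linarith.sub_nonpos_of_le (Mathlib.Tactic.Linarith.natCast_nonneg ℝ (κ n)))]
  have hn1 : (1 : ℝ) ≤ n := by nlinarith
  have hL3 : (L : ℝ) ≤ ε * n := by
    clear * - n K hn1 κ hKK ε hP1 hKKK hK4 hε L hL1
    have a1 : n / K ^ 2 ≤ n / K := by gcongr
    have a2 : n / K ≤ ε / 2 * n := by
      rw [div_le_iff₀ (by positivity)]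
      linarith only [hn1, hK4, mul_nonneg_of_nonpos_of_nonpos (Mathlib.Tactic.Linarith.sub_nonpos_of_le (Mathlib.Tactic.Linarith.natCast_nonneg ℝ n)) (Mathlib.Tactic.Linarith.sub_nonpos_of_le hK4)]
    have a3 : ε * K ≤ ε * n := by gcongr; linarith only [hP1, hKK, hKKK]
    linarith only [hL1, hK4, a1, a2, a3]
  have hL4 : (L : ℝ) ≤ 2 * n := by
    have a1 : n / K ^ 2 ≤ n := div_le_self (by positivity) (by nlinarith)
    linarith
  refine ⟨Nat.le_add_left _ _, hL3, ?_⟩
  have h6 : Λ ^ L * ρ n < η := numeric_window hΛ hK0 hP1 hL1 (hρle n hn) hK1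
    (by rwa [div_lt_iff₀' hη0] at hK2)
  have hΛL : 1 ≤ Λ ^ L := one_le_pow₀ hΛ
  rw [← lt_div_iff₀' (by positivity), hρ, Metric.infDist_lt_iff (SS_nonempty Z)] at h6
  obtain ⟨w, hw, hdw⟩ := h6
  have h7 : η / Λ ^ L ≤ η := div_le_self hη0.le hΛL
  rcases hw with ⟨z, hz, a, b, c, rfl⟩ | ⟨c, h⟩
  swap
  · have a1 := h5 n (by omega) c
    have a2 := hd3 (v n) w
    rw [h] at a2
    have : η ≤ 1 / 4 := min_le_right _ _
    clear * - L f v n ε w η Λ c κ hdw h7 a1 a2 this
    linarith only [hdw, h7, a1, a2, this]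
  have h8 : ∀ j ∈ range L, |f (v (n + j)) * mu (n + j) - f (emb (shift j z)) * mu (n + j)| ≤
      ε / 2 := by
    clear * - L z a b f v n ε Λ h4 n0 κ hn η c hdw m hΛ hη0 τ hτ0 hanti hτn hδf δ hδ hfp
    intro j hj
    obtain ⟨a', b', hab⟩ := HH_iter_code z a b j
    have a1 := h4 n (by omega) (code z + ((a : ℝ), (b : ℝ))) j
    have a2 : dist (pp (v n)) (code z + ((a : ℝ), (b : ℝ))) ≤ η / Λ ^ L :=
      (dist_pp_le (v n) (emb z + lat a b c)).trans hdw.le
    have a3 : dist (v (n + j)) (emb (shift j z) + lat a' b' m) ≤ η := by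
      refine dist_le_of_pp ?_ ?_
      · rw [hab] at a1
        refine a1.trans ?_
        calc Λ ^ j * dist (pp (v n)) (code z + ((a : ℝ), (b : ℝ))) ≤ Λ ^ L * (η / Λ ^ L) := by
              gcongr
              exact (mem_range.1 hj).le
          _ = η := by field_simp
      · simp only [emb, lat, Prod.snd_add, zero_add]
        rw [abs_sub_comm, abs_of_nonneg (hτ0 _)]
        exact (hanti (Nat.le_add_right n j)).trans hτn.le
    have a4 := hδf (a3.trans_lt ((min_le_left _ _).trans_lt (half_lt_self hδ)))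
    rw [hfp, Real.dist_eq] at a4
    rw [← sub_mul, abs_mul]
    exact (mul_le_of_le_one_right (abs_nonneg _) (abs_mu_le _)).trans a4.le
  have h9 : |∑ j ∈ range L, f (emb (shift j z)) * mu (n + j)| ≤ ε / 2 * L := by
    clear * - n f z K hP2 hZ hz L ε κ hn1 hK0 hL2 hKK hKKK hK4
    have b1 := hP2 n le_rfl _ (hZ z hz (-n))
    have b2 := hP2 (n + L) (Nat.le_add_right _ _) _ (hZ z hz (-n))
    rw [sum_range_add] at b2
    have e : ∀ j : ℕ, shift ((n + j : ℕ) : ℤ) (shift (-n) z) = shift j z := by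
      intro j
      rw [shift_shift]
      congr 1
      push_cast
      ring
    simp only [e] at b2
    have b3 : 1 / K ^ 3 * n + 1 / K ^ 3 * (n + L : ℕ) ≤ ε / 2 * L := by
      have hK5 : 0 < K := by linarith only [hK0]
      push_cast
      have c1 : 1 / K ^ 3 * n = n / K ^ 2 / K := by field_simp
      have c2 : n / K ^ 2 / K ≤ L / K := by gcongr
      have c3 : 1 / K ^ 3 * L ≤ L / K := by
        rw [one_div, ← div_eq_inv_mul]
        gcongr
        linarith only [hKK, hKKK]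
      have c4 : 3 * (L / K) ≤ ε / 2 * L := by
        rw [← mul_div_assoc, div_le_iff₀ hK5]
        have : (0 : ℝ) ≤ L := L.cast_nonneg
        linarith only [hK4, mul_nonneg_of_nonpos_of_nonpos (Mathlib.Tactic.Linarith.sub_nonpos_of_le (Mathlib.Tactic.Linarith.natCast_nonneg ℝ L)) (Mathlib.Tactic.Linarith.sub_nonpos_of_le hK4)]
      linarith only [c1, c2, c3, c4]
    rw [abs_le] at b1 b2 ⊢
    constructor <;> linarith only [b1, b2, b3, b1.1, b1.2, b2.1, b2.2]
  have h10 := (abs_sum_le_sum_abs _ _).trans (sum_le_sum h8)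
  rw [sum_sub_distrib, sum_const, card_range, nsmul_eq_mul] at h10
  rw [abs_le] at h9 h10 ⊢
  constructor <;> linarith only [h9, h10, h9.1, h9.2, h10.1, h10.2]

/-- Every orbit converges to an integer or half integer level. -/
lemma exists_limit {ε : ℕ → ℝ} (hε : ∀ j, 0 < ε j) (hΨ0 : ∀ w, 0 ≤ Ψ w)
    (hΨl : LipschitzWith (1 / 2) Ψ) (hΨz : ∀ w ∈ SS Z, Ψ w = 0)
    (hΨ : ∀ j w, 4 * (1 / 2) ^ j ≤ Metric.infDist w (SS Z) →
      ε j * Metric.infDist w (SS Z) / 2 ≤ Ψ w)
    (hv : ∀ n, v (n + 1) = AA (v n + (0, 0, Ψ (v n)))) :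
    ∃ m : ℤ, Tendsto (fun n => (v n).2.2) atTop (𝓝 m) ∨
      Tendsto (fun n => (v n).2.2) atTop (𝓝 (m + 1 / 2)) := by
  have hmono : Monotone fun n => (v n).2.2 :=
    monotone_nat_of_le_succ fun n => by rw [snd_succ hv]; linarith [hΨ0 (v n)]
  have hb : ∀ n, (v n).2.2 ≤ (⌈(v 0).2.2⌉ : ℤ) + 1 / 2 := by
    clear * - v Ψ hv hΨl hΨ0 hΨz Z
    intro n
    induction n with
    | zero => linarith only [Int.le_ceil (v 0).2.2]
    | succ n ih =>
      rw [snd_succ hv]
      have h1 := hΨl.dist_le_mul (v n) ((v n).1, (v n).2.1, (⌈(v 0).2.2⌉ : ℤ) + 1 / 2)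
      rw [hΨz ((v n).1, (v n).2.1, (⌈(v 0).2.2⌉ : ℤ) + 1 / 2) (.inr ⟨_, rfl⟩), dist_zero_right, Real.norm_of_nonneg (hΨ0 _)] at h1
      have h2 : dist (v n) ((v n).1, (v n).2.1, (⌈(v 0).2.2⌉ : ℤ) + 1 / 2) ≤
          (⌈(v 0).2.2⌉ : ℤ) + 1 / 2 - (v n).2.2 := by
        refine dist_le_of_pp (by simpa [pp] using ih) ?_
        rw [abs_sub_comm, abs_of_nonneg (sub_nonneg.2 ih)]
      push_cast at h1
      linarith only [ih, h1, h2]
  have ht := tendsto_atTop_ciSup hmono ⟨_, Set.forall_mem_range.2 hb⟩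
  set t := ⨆ n, (v n).2.2
  have h1 : Tendsto (fun n => Ψ (v n)) atTop (𝓝 0) := by
    have := ((tendsto_add_atTop_iff_nat 1).2 ht).sub ht
    simpa [snd_succ hv] using this
  have h2 : Tendsto (fun n => Metric.infDist (v n) (SS Z)) atTop (𝓝 0) := by
    clear * - v Z ε hε Ψ h1 hΨ
    rw [Metric.tendsto_nhds]
    intro δ hδ
    obtain ⟨j, hj⟩ := exists_pow_lt_of_lt_one (show 0 < δ / 4 by positivity)
      (show (1 / 2 : ℝ) < 1 by norm_num)
    have := hε j
    filter_upwards [h1.eventually (gt_mem_nhds (show 0 < ε j * δ / 2 by positivity))] with n hn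
    rw [dist_zero_right, Real.norm_of_nonneg Metric.infDist_nonneg]
    by_contra hcon
    push Not at hcon
    have h3 := hΨ j (v n) (by linarith only [hj, hcon])
    have h4 : ε j * δ / 2 ≤ ε j * Metric.infDist (v n) (SS Z) / 2 := by gcongr
    linarith only [hn, h3, h4]
  have h3 : |Real.sin (2 * π * t)| ≤ 2 * π * 0 :=
    le_of_tendsto_of_tendsto' ((Real.continuous_sin.tendsto _).comp (ht.const_mul _)).abs
      (h2.const_mul _) fun n => sin_le_infDist Z (v n)
  rw [mul_zero, abs_nonpos_iff, Real.sin_eq_zero_iff] at h3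
  obtain ⟨k, hk⟩ := h3
  have h4 : t = k / 2 := by
    have : π * t = π * (k / 2) := by linarith only [hk]
    exact mul_left_cancel₀ Real.pi_ne_zero this
  obtain ⟨m, rfl | rfl⟩ := Int.even_or_odd' k
  · refine ⟨m, .inl ?_⟩
    rwa [h4, show ((2 * m : ℤ) : ℝ) / 2 = m by push_cast; ring] at ht
  · refine ⟨m, .inr ?_⟩
    rwa [h4, show ((2 * m + 1 : ℤ) : ℝ) / 2 = m + 1 / 2 by push_cast; ring] at ht

end Pool.Agent.Work.MP_2872f6_an
end

-- merged part: Pool.Agent.Work.MP_2872f6_an.Main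
section
/-!
# A Moebius disjoint `C^1` diffeomorphism of the three-torus with positive entropy
-/

open Filter Topology Finset
open scoped Real Manifold ArithmeticFunction.Moebius

namespace Pool.Agent.Work.MP_2872f6_an

theorem exists_cover_map (f : ℕ → R3 → ℝ) (hf : ∀ s, UniformContinuous (f s))
    (hf1 : ∀ s w, |f s w| ≤ 1) (hfp : ∀ s w a b c, f s (w + lat a b c) = f s w) :
    ∃ (F G : R3 → R3) (Z : Set Sq), ContDiff ℝ 1 F ∧ ContDiff ℝ 1 G ∧ (∀ v, F (G v) = v) ∧
      (∀ v, G (F v) = v) ∧ (∀ v w, e3 v = e3 w → e3 (F v) = e3 (F w)) ∧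
      (∀ v w, e3 v = e3 w → e3 (G v) = e3 (G w)) ∧
      (∀ z ∈ Z, ∀ n : ℕ, F^[n] (emb z) = emb (shift n z)) ∧
      (∀ k : ℕ, ∃ W : Finset Sq, (W : Set Sq) ⊆ Z ∧ Real.exp (1 / 2) ^ (2 ^ k) ≤ W.card ∧
        ∀ z ∈ W, ∀ z' ∈ W, z ≠ z' → ∃ i : ℕ, i < 2 ^ k ∧ z i ≠ z' i) ∧
      ∀ s v, Sm fun n => f s (F^[n] v) * mu n := by
  have hemb : Continuous emb :=
    continuous_code.fst.prodMk (continuous_code.snd.prodMk continuous_const)
  obtain ⟨Z, hZ, hW, hD⟩ := exists_subshift (φ := fun s z => f s (emb z)) abs_mu_le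
    (fun s z => hf1 s _) (fun s => (hf s).continuous.comp hemb) mu_aperiodic
  obtain ⟨κ, hκm, hκ, hP⟩ := exists_slow
    (P := fun k n => (k + 1 : ℝ) ^ 3 ≤ n ∧ ∀ s ∈ range (k + 1), ∀ N ≥ n, ∀ z ∈ Z,
      |∑ i ∈ range N, f s (emb (shift i z)) * mu i| ≤ 1 / (k + 1) ^ 3 * N) fun k => by
    refine (tendsto_natCast_atTop_atTop.eventually_ge_atTop _).and
      ((eventually_all_finset _).2 fun s _ => ?_)
    obtain ⟨N0, hN0⟩ := eventually_atTop.1 (hD s (1 / (k + 1) ^ 3) (by positivity))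
    filter_upwards [eventually_ge_atTop N0] with n hn N hN using hN0 N (hn.trans hN)
  have hKl : Tendsto (fun n => (κ n + 1 : ℝ)) atTop atTop :=
    tendsto_atTop_add_const_right _ _ (tendsto_natCast_atTop_atTop.comp hκ)
  obtain ⟨Ψ, hΨ1, hΨ2, hΨ3, hΨ4, hΨ5, hΨ6⟩ := exists_penalty
    (ρ := fun w => Metric.infDist w (SS Z)) (Metric.lipschitz_infDist_pt _)
    (fun w => (infDist_SS_le Z w ⌊w.2.2⌋).trans (by
      rw [abs_le]
      constructor <;> linarith only [Int.floor_le w.2.2, Int.lt_floor_add_one w.2.2]))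
    (ε := fun j => 1 / (2 * (κ j + 1)))
    (fun a b h => by
      have : (κ a : ℝ) ≤ κ b := by exact_mod_cast hκm h
      simp only
      gcongr)
    (by
      have : (0 : ℝ) ≤ κ 0 := Nat.cast_nonneg _
      gcongr
      linarith)
    (tendsto_const_nhds.div_atTop (hKl.const_mul_atTop two_pos))
  have hΨz : ∀ w ∈ SS Z, Ψ w = 0 := fun w hw => hΨ4 w (Metric.infDist_zero_of_mem hw).le
  have hΨp : ∀ a b c w, Ψ (w + lat a b c) = Ψ w := fun a b c =>
    hΨ6 _ fun w => infDist_SS_lat Z a b c w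
  have hΨl : LipschitzWith (1 / 2) Ψ :=
    lipschitzWith_of_nnnorm_fderiv_le (hΨ1.differentiable one_ne_zero) fun v => by
      rw [← NNReal.coe_le_coe]
      simpa using hΨ2 v
  let ι : ℝ →L[ℝ] R3 := (ContinuousLinearMap.inr ℝ ℝ (ℝ × ℝ)).comp (ContinuousLinearMap.inr ℝ ℝ ℝ)
  have hι : ‖ι‖ ≤ 1 := ContinuousLinearMap.opNorm_le_bound _ zero_le_one fun x => by
    clear * - ι x
    simp [ι, Prod.norm_def]
  obtain ⟨B, hB1, hB2, hB3⟩ := exists_inverse (u := fun w => ι (Ψ w)) (ι.contDiff.comp hΨ1)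
    fun w => by
      clear * - ι Ψ w hΨ1 hΨ2 hι
      have h1 := (ι.hasFDerivAt.comp w (hΨ1.differentiable one_ne_zero w).hasFDerivAt).fderiv
      rw [show (fun w => ι (Ψ w)) = ι ∘ Ψ from rfl, h1]
      refine (ContinuousLinearMap.opNorm_comp_le _ _).trans ?_
      linarith only [hΨ2, hι, hΨ2 w, norm_nonneg (fderiv ℝ Ψ w), norm_nonneg ι, mul_nonneg_of_nonpos_of_nonpos (Mathlib.Tactic.Linarith.sub_nonpos_of_le hι) (Mathlib.Tactic.Linarith.sub_nonpos_of_le (norm_nonneg (fderiv ℝ Ψ w)))]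
  have hBp : ∀ w a b c, B (w + lat a b c) = B w + lat a b c := by
    intro w a b c
    rw [← hB3 (B w + lat a b c), hΨp, add_right_comm, hB2]
  set F : R3 → R3 := fun w => AA (w + ι (Ψ w)) with hF
  have hFv : ∀ v n, F^[n + 1] v = AA (F^[n] v + (0, 0, Ψ (F^[n] v))) := fun v n =>
    Function.iterate_succ_apply' F n v
  refine ⟨F, fun w => B (AI w), Z, ?_, ?_, ?_, ?_, ?_, ?_, ?_, hW, ?_⟩
  · exact (contDiff_AA (n := 1)).comp (contDiff_id.add (ι.contDiff.comp hΨ1))
  · exact hB1.comp (contDiff_AI (n := 1))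
  · intro w
    simp only [hF, hB2, AA_AI]
  · intro w
    simp only [hF, AI_AA, hB3]
  · intro v w h
    obtain ⟨a, b, c, rfl⟩ := e3_eq_iff.1 h
    refine e3_eq_iff.2 ⟨b, -a, c, ?_⟩
    simp only [hF]
    rw [hΨp, add_right_comm, AA_lat]
  · intro v w h
    obtain ⟨a, b, c, rfl⟩ := e3_eq_iff.1 h
    refine e3_eq_iff.2 ⟨-b, a, c, ?_⟩
    simp only
    rw [AI_lat, hBp]
  · intro z hz n
    induction n with
    | zero => simp [shift_zero]
    | succ n ih =>
      rw [hFv, ih, hΨz _ (.inl ⟨_, hZ z hz n, 0, 0, 0, by simp [lat, Prod.ext_iff]⟩),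
        show ((n + 1 : ℕ) : ℤ) = 1 + n by push_cast; ring, ← shift_shift]
      have h0 : ss 0 = 1 := Real.smoothTransition.one_of_one_le (by simp)
      simp only [emb, ← HH_code]
      simp [AA, HH, h0]
  · intro s v
    obtain ⟨m, hm | hm⟩ := exists_limit (v := fun n => F^[n] v)
      (ε := fun j => 1 / (2 * (κ j + 1))) (fun j => by positivity) hΨ3 hΨl hΨz hΨ5 (hFv v)
    · refine sm_int hZ hκ ?_ hΨ3 hΨ5 (hFv v) hm (hf s) (hf1 s) (hfp s)
      filter_upwards [hP, hκ.eventually_ge_atTop s] with n hn hs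
      exact ⟨hn.1, hn.2 s (mem_range.2 (by omega))⟩
    · exact sm_half (hFv v) hm (hf s) (hf1 s)

lemma lipschitz_e1 : LipschitzWith (Real.toNNReal (2 * π)) e1 := by
  refine LipschitzWith.of_dist_le' fun x y => ?_
  have h : e1 x = e1 (x - y) * e1 y := by rw [← e1_add, sub_add_cancel]
  have h2 : dist (e1 x) (e1 y) = ‖(e1 (x - y) : ℂ) - 1‖ := by
    rw [h]
    change dist ((e1 (x - y) * e1 y : Circle) : ℂ) (e1 y : ℂ) = _
    rw [dist_eq_norm, Circle.coe_mul, ← sub_one_mul, norm_mul, Circle.norm_coe, mul_one]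
  rw [h2, e1, Circle.coe_exp, mul_comm _ Complex.I]
  refine Real.norm_exp_I_mul_ofReal_sub_one_le.trans (le_of_eq ?_)
  rw [Real.norm_eq_abs, abs_mul, abs_of_pos (by positivity : 0 < 2 * π), Real.dist_eq]

lemma uniformContinuous_e3 : UniformContinuous e3 := by
  have := lipschitz_e1.uniformContinuous
  exact (this.comp uniformContinuous_fst).prodMk
    ((this.comp (uniformContinuous_fst.comp uniformContinuous_snd)).prodMk
      (this.comp (uniformContinuous_snd.comp uniformContinuous_snd)))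

lemma im_e1_xi (z : Sq) : 1 / 2 ≤ sg (z 0) * (e1 (xi z) : ℂ).im := by
  have h1 := abs_xi_sub z
  have h2 : sg (z 0) * (e1 (xi z) : ℂ).im = Real.cos (2 * π * (xi z - sg (z 0) / 4)) := by
    rw [e1, Circle.coe_exp, Complex.exp_ofReal_mul_I_im]
    cases z 0
    · simp only [sg, Bool.false_eq_true, ↓reduceIte]
      rw [show 2 * π * (xi z - -1 / 4) = 2 * π * xi z + π / 2 by ring, Real.cos_add_pi_div_two]
      ring
    · simp only [sg, ↓reduceIte]
      rw [show 2 * π * (xi z - 1 / 4) = 2 * π * xi z - π / 2 by ring, Real.cos_sub_pi_div_two]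
      ring
  rw [h2]
  refine le_trans ?_ Real.one_sub_sq_div_two_le_cos
  have h3 : |2 * π * (xi z - sg (z 0) / 4)| ≤ 1 := by
    rw [abs_mul, abs_of_pos (by positivity : 0 < 2 * π)]
    linarith only [h1, Real.pi_lt_four, Real.pi_pos, abs_nonneg (xi z - sg (z 0) / 4), mul_nonneg_of_nonpos_of_nonpos (Mathlib.Tactic.Linarith.sub_nonpos_of_le h1) (le_of_lt (Mathlib.Tactic.Linarith.sub_neg_of_lt Real.pi_pos))]
  have := (sq_le_one_iff_abs_le_one _).2 h3
  linarith only [this]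

lemma one_le_dist_emb {z z' : Sq} (h : z 0 ≠ z' 0) : 1 ≤ dist (e3 (emb z)) (e3 (emb z')) := by
  have h1 := im_e1_xi z
  have h2 := im_e1_xi z'
  have h3 : |(e1 (xi z) : ℂ).im - (e1 (xi z') : ℂ).im| ≤ dist (e3 (emb z)) (e3 (emb z')) := by
    rw [← Complex.sub_im]
    refine (Complex.abs_im_le_norm _).trans ?_
    rw [← dist_eq_norm]
    exact (le_max_left _ _).trans (le_max_right _ _)
  refine le_trans ?_ h3
  cases hz : z 0 <;> cases hz' : z' 0 <;> simp only [hz, hz', sg] at h h1 h2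
  · exact absurd rfl h
  · exact le_abs.2 (.inr (by simp at h1 h2; linarith only [h1, h2]))
  · exact le_abs.2 (.inl (by simp at h1 h2; linarith only [h1, h2]))
  · exact absurd rfl h

lemma entropy_pos {T : T3 → T3} {Z : Set Sq}
    (hT : ∀ z ∈ Z, ∀ n : ℕ, T^[n] (e3 (emb z)) = e3 (emb (shift n z)))
    (hW : ∀ k : ℕ, ∃ W : Finset Sq, (W : Set Sq) ⊆ Z ∧ Real.exp (1 / 2) ^ (2 ^ k) ≤ W.card ∧
        ∀ z ∈ W, ∀ z' ∈ W, z ≠ z' → ∃ i : ℕ, i < 2 ^ k ∧ z i ≠ z' i) :
    0 < Dynamics.coverEntropy T Set.univ := by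
  classical
  refine lt_of_lt_of_le (b := ((1 / 2 : ℝ) : EReal)) (by exact_mod_cast one_half_pos)
    (le_trans ?_ (Dynamics.netEntropyEntourage_le_coverEntropy T Set.univ
      (Metric.dist_mem_uniformity one_half_pos)))
  refine Frequently.le_expGrowthSup (frequently_atTop.2 fun k => ⟨2 ^ k, Nat.lt_two_pow_self.le, ?_⟩)
  obtain ⟨W, hWZ, hWc, hWs⟩ := hW k
  have hsep : ∀ z ∈ W, ∀ z' ∈ W, z ≠ z' →
      ∃ i < 2 ^ k, 1 ≤ dist (T^[i] (e3 (emb z))) (T^[i] (e3 (emb z'))) := by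
    intro z hz z' hz' hne
    obtain ⟨i, hi, h⟩ := hWs z hz z' hz' hne
    refine ⟨i, hi, ?_⟩
    rw [hT z (hWZ hz), hT z' (hWZ hz')]
    exact one_le_dist_emb (by simpa [shift] using h)
  have hnet : Dynamics.IsDynNetIn T Set.univ {p : T3 × T3 | dist p.1 p.2 < 1 / 2} (2 ^ k)
      (W.image fun z => e3 (emb z) : Finset T3) := by
    refine ⟨Set.subset_univ _, fun a ha b hb hab => ?_⟩
    obtain ⟨z, hz, rfl⟩ := mem_image.1 ha
    obtain ⟨z', hz', rfl⟩ := mem_image.1 hb
    obtain ⟨i, hi, h⟩ := hsep z hz z' hz' fun e => hab (by rw [e])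
    refine Set.disjoint_left.2 fun y h1 h2 => ?_
    have h3 : dist _ _ < 1 / 2 := Dynamics.mem_ball_dynEntourage.1 h1 i hi
    have h4 : dist _ _ < 1 / 2 := Dynamics.mem_ball_dynEntourage.1 h2 i hi
    linarith only [h, h3, h4, dist_triangle_right (T^[i] (e3 (emb z))) (T^[i] (e3 (emb z'))) (T^[i] y)]
  have hc := hnet.card_le_netMaxcard
  rw [card_image_of_injOn fun z hz z' hz' e => by
    by_contra hne
    obtain ⟨i, -, h⟩ := hsep z hz z' hz' hne
    rw [e, dist_self] at h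
    linarith only [h]] at hc
  refine le_trans ?_ (ENat.toENNReal_mono hc)
  rw [← EReal.coe_coe_eq_natCast, ← EReal.coe_mul, EReal.exp_coe, ENat.toENNReal_coe,
    ← ENNReal.ofReal_natCast]
  refine ENNReal.ofReal_le_ofReal ?_
  rwa [mul_comm, Real.exp_nat_mul]

theorem main : ∃ T : Diffeomorph I3 I3 T3 T3 1, 0 < Dynamics.coverEntropy T Set.univ ∧
    ∀ f : T3 → ℂ, Continuous f → ∀ x : T3,
      Tendsto (fun N : ℕ => (1 / (N : ℂ)) * ∑ n ∈ Finset.Icc 1 N, f (T^[n] x) * (μ n : ℂ))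
        atTop (𝓝 0) := by
  let d : ℕ → C(T3, ℝ) := TopologicalSpace.denseSeq C(T3, ℝ)
  obtain ⟨F, G, Z, hF, hG, hFG, hGF, hFe, hGe, hZ, hW, hS⟩ := exists_cover_map
    (fun s w => (‖d s‖ + 1)⁻¹ * d s (e3 w))
    (fun s => (CompactSpace.uniformContinuous_of_continuous
      (f := fun y => (‖d s‖ + 1)⁻¹ * d s y) (by fun_prop)).comp uniformContinuous_e3)
    (fun s w => by
      rw [abs_mul, abs_of_pos (by positivity), inv_mul_le_iff₀ (by positivity)]
      linarith [(d s).norm_coe_le_norm (e3 w), Real.norm_eq_abs (d s (e3 w))])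
    (fun s w a b c => by rw [e3_eq_iff.2 ⟨a, b, c, rfl⟩])
  obtain ⟨T, hT⟩ := exists_diffeomorph hF hG hFG hGF hFe hGe
  have hTn : ∀ n v, T^[n] (e3 v) = e3 (F^[n] v) := fun n v =>
    ((Function.Semiconj.iterate_right (f := e3) (ga := F) (gb := T) (fun v => (hT v).symm) n) v).symm
  refine ⟨T, entropy_pos (Z := Z) (fun z hz n => by rw [hTn, hZ z hz]) hW, fun f hf x => ?_⟩
  have h1 : ∀ g : C(T3, ℝ), Sm fun n => g (T^[n] x) * mu n := by
    intro g
    refine Sm.of_approx fun ε hε => ?_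
    obtain ⟨s, hs⟩ := (TopologicalSpace.denseRange_denseSeq C(T3, ℝ)).exists_dist_lt g hε
    refine ⟨_, (hS s (l3 x)).const_mul (‖d s‖ + 1), fun n => ?_⟩
    rw [← hTn, e3_l3, ← mul_assoc, mul_inv_cancel_left₀ (by positivity), ← sub_mul, abs_mul]
    refine (mul_le_of_le_one_right (abs_nonneg _) (abs_mu_le n)).trans ?_
    exact (ContinuousMap.dist_apply_le_dist _).trans hs.le
  have h2 : ∀ g : C(T3, ℝ), Tendsto
      (fun N : ℕ => (1 / (N : ℝ)) * ∑ n ∈ Finset.Icc 1 N, g (T^[n] x) * mu n) atTop (𝓝 0) := by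
    clear * - T x h1
    intro g
    rw [Metric.tendsto_nhds]
    intro ε hε
    filter_upwards [(tendsto_add_atTop_nat 1).eventually (h1 g (ε / 3) (by positivity)),
      eventually_ge_atTop 1] with N hN hN1
    have hN2 : (1 : ℝ) ≤ N := by exact_mod_cast hN1
    rw [sum_range_succ_mu] at hN
    rw [dist_zero_right, Real.norm_eq_abs, abs_mul, abs_of_pos (by positivity), one_div,
      inv_mul_lt_iff₀ (by positivity)]
    push_cast at hN
    linarith only [hε, hN, hN2, mul_nonneg_of_nonpos_of_nonpos (le_of_lt (Mathlib.Tactic.Linarith.sub_neg_of_lt hε)) (Mathlib.Tactic.Linarith.sub_nonpos_of_le hN2)]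
  have h3 := ((Complex.continuous_ofReal.tendsto _).comp
    (h2 ⟨fun y => (f y).re, by fun_prop⟩)).add
    (((Complex.continuous_ofReal.tendsto _).comp (h2 ⟨fun y => (f y).im, by fun_prop⟩)).mul_const
      Complex.I)
  simp only [Complex.ofReal_zero, zero_mul, add_zero] at h3
  refine h3.congr fun N => ?_
  simp only [Function.comp_apply, ContinuousMap.coe_mk, mu]
  push_cast
  rw [mul_assoc, ← mul_add, sum_mul, ← sum_add_distrib]
  congr 1
  refine sum_congr rfl fun n _ => ?_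
  conv_rhs => rw [← Complex.re_add_im (f (T^[n] x))]
  ring

end Pool.Agent.Work.MP_2872f6_an
end
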